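import Mathlib

open Finset
open scoped symmDiff

namespace Pool.Agent.P.MP_6327e0_co

/-- binomial coefficient with an integer lower index -/
def N (n : ℕ) (j : ℤ) : ℕ := if 0 ≤ j then n.choose j.toNat else 0

lemma N_neg (n : ℕ) {j : ℤ} (h : j < 0) : N n j = 0 := by
  simp [N, not_le.2 h]

lemma N_nat (n k : ℕ) : N n (k : ℤ) = n.choose k := by
  simp [N]

lemma N_of_eq (n k : ℕ) {j : ℤ} (h : j = k) : N n j = n.choose k := by
  rw [h, N_nat]

/-- rapid growth of the binomial coefficients up to level `M` -/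
def Big (n M : ℕ) : Prop :=
  ∀ e i : ℕ, ∀ j : ℤ, e ≤ 2000 * i → j ≤ M → 2 ^ e * N n (j - i) ≤ N n j

lemma choose_step (P n k : ℕ) (h : (P + 1) * (k + 1) ≤ n) :
    P * n.choose k ≤ n.choose (k + 1) := by
  have h1 := Nat.choose_succ_right_eq n k
  have h2 : P * (k + 1) ≤ n - k := by
    have : (P + 1) * (k + 1) = P * (k + 1) + (k + 1) := by ring
    omega
  have h3 : P * n.choose k * (k + 1) ≤ n.choose (k + 1) * (k + 1) := by
    rw [h1]
    calc P * n.choose k * (k + 1) = n.choose k * (P * (k + 1)) := by ring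
      _ ≤ n.choose k * (n - k) := Nat.mul_le_mul_left _ h2
  exact Nat.le_of_mul_le_mul_right h3 (Nat.succ_pos k)

lemma N_step (P n M : ℕ) (h : (P + 1) * M ≤ n) (j : ℤ) (hj : j ≤ M) :
    P * N n (j - 1) ≤ N n j := by
  by_cases h0 : j - 1 < 0
  · rw [N_neg n h0]; simp
  · obtain ⟨k, hk⟩ : ∃ k : ℕ, j = (k : ℤ) + 1 := ⟨(j - 1).toNat, by omega⟩
    rw [N_of_eq n k (by omega), N_of_eq n (k + 1) (by push_cast; omega)]
    apply choose_step
    have : k + 1 ≤ M := by omega
    exact (Nat.mul_le_mul_left _ this).trans h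

lemma N_pow (P n M : ℕ) (h : (P + 1) * M ≤ n) (i : ℕ) :
    ∀ j : ℤ, j ≤ M → P ^ i * N n (j - i) ≤ N n j := by
  induction i with
  | zero => intro j _; simp
  | succ i ih =>
    intro j hj
    have h1 := N_step P n M h (j - i) (by omega)
    have h2 := ih j hj
    have h3 : j - ((i + 1 : ℕ) : ℤ) = j - i - 1 := by push_cast; ring
    rw [h3]
    calc P ^ (i + 1) * N n (j - i - 1) = P ^ i * (P * N n (j - i - 1)) := by ring
      _ ≤ P ^ i * N n (j - i) := Nat.mul_le_mul_left _ h1
      _ ≤ N n j := h2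

lemma big_of_le {P n M : ℕ} (hP : P = 2 ^ 2000) (h : (P + 1) * M ≤ n) : Big n M := by
  intro e i j he hj
  refine le_trans (Nat.mul_le_mul_right _ ?_) (N_pow P n M h i j hj)
  rw [hP, ← pow_mul]
  exact Nat.pow_le_pow_right (by norm_num) he

lemma Big.le {n M : ℕ} (h : Big n M) (e : ℕ) {j j' : ℤ} (hj : j ≤ M)
    (he : (e : ℤ) ≤ 2000 * (j - j')) : 2 ^ e * N n j' ≤ N n j := by
  have h0 : 0 ≤ j - j' := by omega
  have := h e (j - j').toNat j (by omega) hj
  rwa [show j - ((j - j').toNat : ℤ) = j' by omega] at this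

lemma Big.mono {n M : ℕ} (h : Big n M) {j j' : ℤ} (hj : j ≤ M) (hjj : j' ≤ j) :
    N n j' ≤ N n j := by
  have := h.le 0 hj (j' := j') (by omega)
  simpa using this

lemma geom_sum_le (f : ℕ → ℕ) (h : ∀ r, 2 * f (r + 1) ≤ f r) (R : ℕ) :
    ∑ r ∈ range R, f r ≤ 2 * f 0 := by
  have : ∀ R, ∑ r ∈ range R, f r + 2 * f R ≤ 2 * f 0 := by
    intro R
    induction R with
    | zero => simp
    | succ R ih =>
      rw [sum_range_succ]
      have := h R
      omega
  have := this R
  omega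

variable {n : ℕ}

/-- number of `a`-sets containing a fixed set -/
lemma card_filter_superset_le (𝒜 : Finset (Finset (Fin n))) (a : ℕ) (h𝒜 : ∀ F ∈ 𝒜, F.card = a)
    (S : Finset (Fin n)) :
    (𝒜.filter (fun F => S ⊆ F)).card ≤ N n ((a : ℤ) - S.card) := by
  by_cases hS : S.card ≤ a
  · rw [N_of_eq n (a - S.card) (by omega)]
    have : n.choose (a - S.card) = (powersetCard (a - S.card) (univ : Finset (Fin n))).card := by
      simp
    rw [this]
    apply card_le_card_of_injOn (fun F => F \ S)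
    · intro F hF
      simp only [coe_filter, Set.mem_ofPred_eq] at hF
      simp only [mem_coe, mem_powersetCard, subset_univ, true_and]
      rw [card_sdiff_of_subset hF.2, h𝒜 F hF.1]
    · intro F hF G hG hFG
      simp only [coe_filter, Set.mem_ofPred_eq] at hF hG
      have h1 : F = F \ S ∪ S := (sdiff_union_of_subset hF.2).symm
      have h2 : G = G \ S ∪ S := (sdiff_union_of_subset hG.2).symm
      simp only at hFG
      rw [h1, h2, hFG]
  · have : 𝒜.filter (fun F => S ⊆ F) = ∅ := by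
      apply filter_eq_empty_iff.2
      intro F hF hSF
      have := card_le_card hSF
      rw [h𝒜 F hF] at this
      exact hS this
    rw [this]; simp

/-- number of `a`-sets meeting `I` in at least `r` elements -/
lemma card_filter_inter_le (𝒜 : Finset (Finset (Fin n))) (a : ℕ) (h𝒜 : ∀ F ∈ 𝒜, F.card = a)
    (I : Finset (Fin n)) (r : ℕ) :
    (𝒜.filter (fun F => r ≤ (F ∩ I).card)).card ≤ 2 ^ I.card * N n ((a : ℤ) - r) := by
  have hsub : 𝒜.filter (fun F => r ≤ (F ∩ I).card) ⊆
      (powersetCard r I).biUnion (fun S => 𝒜.filter (fun F => S ⊆ F)) := by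
    intro F hF
    rw [mem_filter] at hF
    obtain ⟨S, hS, hSc⟩ := exists_subset_card_eq hF.2
    rw [mem_biUnion]
    refine ⟨S, mem_powersetCard.2 ⟨hS.trans inter_subset_right, hSc⟩, ?_⟩
    exact mem_filter.2 ⟨hF.1, hS.trans inter_subset_left⟩
  refine (card_le_card hsub).trans (card_biUnion_le.trans ?_)
  calc ∑ S ∈ powersetCard r I, (𝒜.filter (fun F => S ⊆ F)).card
      ≤ ∑ S ∈ powersetCard r I, N n ((a : ℤ) - r) := by
        apply sum_le_sum
        intro S hS
        have := card_filter_superset_le 𝒜 a h𝒜 S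
        rwa [(mem_powersetCard.1 hS).2] at this
    _ = (powersetCard r I).card * N n ((a : ℤ) - r) := by simp
    _ ≤ 2 ^ I.card * N n ((a : ℤ) - r) := by
        apply Nat.mul_le_mul_right
        rw [← card_powerset]
        exact card_le_card (fun S hS => mem_powerset.2 (mem_powersetCard.1 hS).1)

/-- degree of an element -/
def deg (ℬ : Finset (Finset (Fin n))) (i : Fin n) : ℕ := (ℬ.filter (fun G => i ∈ G)).card

/-- all degrees are small -/
def Hom (ℬ : Finset (Finset (Fin n))) : Prop := ∀ i, 128 * deg ℬ i ≤ ℬ.card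

lemma sum_card_inter (ℬ : Finset (Finset (Fin n))) (S : Finset (Fin n)) :
    ∑ G ∈ ℬ, (G ∩ S).card = ∑ i ∈ S, deg ℬ i := by
  have h1 : ∀ G : Finset (Fin n), (G ∩ S).card = ∑ i ∈ S, if i ∈ G then 1 else 0 := by
    intro G
    rw [sum_boole, inter_comm]
    simp [filter_mem_eq_inter]
  simp_rw [h1]
  rw [sum_comm]
  apply sum_congr rfl
  intro i _
  rw [sum_boole]
  simp [deg]

lemma markov (ℬ : Finset (Finset (Fin n))) (hB : Hom ℬ) (S : Finset (Fin n)) (t : ℕ) :
    128 * (t * (ℬ.filter (fun G => t ≤ (G ∩ S).card)).card) ≤ S.card * ℬ.card := by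
  have h1 : t * (ℬ.filter (fun G => t ≤ (G ∩ S).card)).card ≤ ∑ G ∈ ℬ, (G ∩ S).card := by
    calc t * (ℬ.filter (fun G => t ≤ (G ∩ S).card)).card
        = ∑ G ∈ ℬ.filter (fun G => t ≤ (G ∩ S).card), t := by simp [mul_comm]
      _ ≤ ∑ G ∈ ℬ.filter (fun G => t ≤ (G ∩ S).card), (G ∩ S).card := by
          apply sum_le_sum
          intro G hG
          exact (mem_filter.1 hG).2
      _ ≤ ∑ G ∈ ℬ, (G ∩ S).card := sum_le_sum_of_subset (filter_subset _ _)
  rw [sum_card_inter] at h1
  calc 128 * (t * (ℬ.filter (fun G => t ≤ (G ∩ S).card)).card)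
      ≤ 128 * ∑ i ∈ S, deg ℬ i := Nat.mul_le_mul_left _ h1
    _ = ∑ i ∈ S, 128 * deg ℬ i := by rw [mul_sum]
    _ ≤ ∑ i ∈ S, ℬ.card := sum_le_sum (fun i _ => hB i)
    _ = S.card * ℬ.card := by simp

lemma card_symmDiff_add (F G : Finset (Fin n)) :
    (F ∆ G).card + 2 * (F ∩ G).card = F.card + G.card := by
  rw [Finset.symmDiff_def, card_union_of_disjoint disjoint_sdiff_sdiff]
  have h1 := card_sdiff_add_card_inter F G
  have h2 := card_sdiff_add_card_inter G F
  rw [inter_comm G F] at h2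
  omega

lemma card_symmDiff_triangle (A B C : Finset (Fin n)) :
    (A ∆ C).card ≤ (A ∆ B).card + (B ∆ C).card := by
  refine le_trans (card_le_card ?_) (card_union_le _ _)
  intro x hx
  simp only [mem_symmDiff, mem_union] at hx ⊢
  tauto

end Pool.Agent.P.MP_6327e0_co
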