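import Mathlib

open Finset
open scoped symmDiff

namespace Pool.Agent.P.MP_6327e0_co

def popc (m : ℕ) : ℕ := m % 2 + m / 2 % 2 + m / 4 % 2 + m / 8 % 2

def code (m : ℕ) : ℕ := cond (Nat.blt m 8) m (23 - m)

def masks : List (ℕ × ℕ × Fin 4) :=
  [(16320, 0, 0), (24480, 0, 1), (30600, 0, 2), (6120, 0, 3), (44880, 1, 1), (47940, 1, 2),
   (11220, 1, 3), (53040, 2, 0), (56610, 2, 2), (19890, 2, 3), (60945, 3, 2), (36465, 3, 3),
   (62220, 4, 0), (62730, 4, 1), (29070, 4, 3), (64005, 5, 1), (45645, 5, 3), (64515, 6, 0),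
   (54315, 6, 3), (59415, 7, 3), (1020, 8, 0), (1530, 8, 1), (4590, 8, 2), (2805, 9, 1),
   (8925, 9, 2), (3315, 10, 0), (17595, 10, 2), (34935, 11, 2), (12495, 12, 0), (20655, 12,
   1), (41055, 13, 1), (49215, 14, 0)]

def onebit (w : ℕ) : Bool := Nat.beq w 0 || Nat.beq w (2 ^ Nat.log2 w)

def slackB (s : ℕ) : Bool := masks.any (fun p => onebit (s &&& p.1))

def s2B (s : ℕ) : Bool := (List.range 16).all (fun m => !(s.testBit m) ||
  (List.range 16).any (fun c => s.testBit c && Nat.ble 3 (popc (code m ^^^ code c))))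

def s3B (s : ℕ) : Bool := (List.range 16).all (fun c => !(s.testBit c) || slackB (s ^^^ 2 ^ c))

def checkB (a b : ℕ) : Bool := !(Nat.beq (a &&& b) 0) || slackB (256 * a + b) ||
  (Nat.beq (a ||| b) 255 && s2B (256 * a + b) && s3B (256 * a + b))

lemma check_all : (List.range 256).all (fun a => (List.range 256).all
    (fun b => checkB a b)) = true := by decide +kernel

lemma check_lt (a b : ℕ) (ha : a < 256) (hb : b < 256) : checkB a b = true := by
  have h := check_all
  rw [List.all_eq_true] at h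
  have h1 := h a (List.mem_range.2 ha)
  rw [List.all_eq_true] at h1
  exact h1 b (List.mem_range.2 hb)

def dec4 (m : ℕ) : Finset (Fin 4) := univ.filter (fun i => m.testBit i.val)

lemma dec4_surj : ∀ y : Finset (Fin 4), ∃ m : Fin 16, dec4 (code m.val) = y := by decide +kernel

lemma dec4_compl : ∀ m : Fin 8, dec4 (code (8 + m.val)) = (dec4 (code m.val))ᶜ := by
  decide +kernel

lemma dec4_miss : ∀ p ∈ masks, ∀ m : Fin 16,
    2 ≤ ((dec4 (code m.val) ∆ dec4 p.2.1).erase p.2.2).card → p.1.testBit m.val = true := by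
  decide +kernel

lemma dec4_dist : ∀ m c : Fin 16, popc (code m.val ^^^ code c.val) =
    (dec4 (code m.val) ∆ dec4 (code c.val)).card := by
  decide +kernel

lemma onebit_spec (w : ℕ) (h : onebit w = true) : ∃ c, ∀ m, w.testBit m = true → m = c := by
  simp only [onebit, Bool.or_eq_true, Nat.beq_eq] at h
  rcases h with h | h
  · exact ⟨0, fun m hm => by rw [h] at hm; simp at hm⟩
  · refine ⟨Nat.log2 w, fun m hm => ?_⟩
    rw [h, Nat.testBit_two_pow] at hm
    exact (of_decide_eq_true hm).symm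

lemma slackB_spec (s : ℕ) (h : slackB s = true) :
    ∃ o x c, ∀ m : Fin 16, s.testBit m.val = true →
      2 ≤ ((dec4 (code m.val) ∆ o).erase x).card → dec4 (code m.val) = c := by
  simp only [slackB, List.any_eq_true] at h
  obtain ⟨p, hp, h⟩ := h
  obtain ⟨c, hc⟩ := onebit_spec _ h
  refine ⟨dec4 p.2.1, p.2.2, dec4 (code c), fun m h1 h2 => ?_⟩
  rw [hc m.val]
  rw [Nat.testBit_and, h1, dec4_miss p hp m h2]
  rfl

theorem cube4 (S : Finset (Fin 4) → Prop) (h : ∀ y, S y → ¬ S yᶜ) :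
    (∃ o x c, ∀ y, S y → 2 ≤ ((y ∆ o).erase x).card → y = c) ∨
    ((∀ y, ¬ S y → S yᶜ) ∧ (∀ y, S y → ∃ c, S c ∧ 3 ≤ (y ∆ c).card) ∧
      (∀ c, S c → ∃ o x c', ∀ y, S y → 2 ≤ ((y ∆ o).erase x).card → y = c ∨ y = c')) := by
  classical
  set a := Nat.ofBits (fun m : Fin 8 => decide (S (dec4 (code (8 + m.val))))) with ha
  set b := Nat.ofBits (fun m : Fin 8 => decide (S (dec4 (code m.val)))) with hb
  have ha' : a < 2 ^ 8 := Nat.ofBits_lt_two_pow _
  have hb' : b < 2 ^ 8 := Nat.ofBits_lt_two_pow _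
  have ha1 : ∀ m : ℕ, m < 8 → (a.testBit m = true ↔ S (dec4 (code m))ᶜ) := by
    intro m hm
    rw [ha, Nat.testBit_ofBits_lt _ _ hm, ← dec4_compl ⟨m, hm⟩]
    simp
  have hb1 : ∀ m : ℕ, m < 8 → (b.testBit m = true ↔ S (dec4 (code m))) := by
    intro m hm
    rw [hb, Nat.testBit_ofBits_lt _ _ hm]
    simp
  have hs : ∀ m : ℕ, m < 16 → ((256 * a + b).testBit m = true ↔ S (dec4 (code m))) := by
    intro m hm
    rw [show (256 : ℕ) = 2 ^ 8 by norm_num, Nat.testBit_two_pow_mul_add _ hb']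
    split_ifs with h8
    · exact hb1 m h8
    · rw [ha1 _ (by omega), ← dec4_compl ⟨m - 8, by omega⟩]
      simp only
      rw [show 8 + (m - 8) = m by omega]
  have hc := check_lt a b ha' hb'
  simp only [checkB, Bool.or_eq_true, Bool.and_eq_true, Bool.not_eq_eq_eq_not, Bool.not_true,
    Nat.beq_eq] at hc
  rcases hc with (hc | hc) | ⟨⟨h1, h2⟩, h3⟩
  · exfalso
    have : a &&& b = 0 := by
      apply Nat.eq_of_testBit_eq
      intro m
      rw [Nat.testBit_and, Nat.zero_testBit]
      by_cases hm : m < 8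
      · by_contra h2
        simp only [Bool.and_eq_false_imp, not_forall, Bool.not_eq_false] at h2
        obtain ⟨h2, h3⟩ := h2
        exact h _ ((hb1 m hm).1 h3) ((ha1 m hm).1 h2)
      · rw [hb, Nat.testBit_ofBits_ge _ _ (by omega)]
        simp
    rw [this] at hc
    exact Bool.noConfusion hc
  · left
    obtain ⟨o, x, c, hc'⟩ := slackB_spec _ hc
    refine ⟨o, x, c, fun y hy h2 => ?_⟩
    obtain ⟨m, rfl⟩ := dec4_surj y
    exact hc' m ((hs _ m.isLt).2 hy) h2
  · right
    simp only [s2B, s3B, List.all_eq_true, List.mem_range, Bool.or_eq_true,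
      Bool.not_eq_eq_eq_not, Bool.not_true, List.any_eq_true, Bool.and_eq_true, Nat.ble_eq]
      at h2 h3
    have h4 : ∀ m : ℕ, m < 8 → S (dec4 (code m))ᶜ ∨ S (dec4 (code m)) := by
      intro m hm
      have : (a ||| b).testBit m = true := by
        rw [h1, show (255 : ℕ) = 2 ^ 8 - 1 by norm_num, Nat.testBit_two_pow_sub_one]
        simpa using hm
      rw [Nat.testBit_or, Bool.or_eq_true, ha1 m hm, hb1 m hm] at this
      exact this
    refine ⟨fun y hy => ?_, fun y hy => ?_, fun y hy => ?_⟩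
    · obtain ⟨m, rfl⟩ := dec4_surj y
      by_cases hm : m.val < 8
      · exact (h4 m.val hm).resolve_right hy
      · have h5 := dec4_compl ⟨m.val - 8, by omega⟩
        simp only at h5
        rw [show 8 + (m.val - 8) = m.val by omega] at h5
        rw [h5] at hy ⊢
        rw [compl_compl]
        exact (h4 (m.val - 8) (by omega)).resolve_left hy
    · obtain ⟨m, rfl⟩ := dec4_surj y
      rcases h2 m.val m.isLt with h4 | ⟨c, hc, h4, h5⟩
      · rw [(hs _ m.isLt).2 hy] at h4
        exact Bool.noConfusion h4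
      · exact ⟨dec4 (code c), (hs _ hc).1 h4, by rw [← dec4_dist m ⟨c, hc⟩]; exact h5⟩
    · obtain ⟨m, rfl⟩ := dec4_surj y
      rcases h3 m.val m.isLt with h4 | h4
      · rw [(hs _ m.isLt).2 hy] at h4
        exact Bool.noConfusion h4
      · obtain ⟨o, x, c, hc'⟩ := slackB_spec _ h4
        refine ⟨o, x, c, fun y hy h2 => ?_⟩
        obtain ⟨m', rfl⟩ := dec4_surj y
        by_cases hmm : m.val = m'.val
        · left; rw [hmm]
        · right
          refine hc' m' ?_ h2
          rw [Nat.testBit_xor, (hs _ m'.isLt).2 hy, Nat.testBit_two_pow]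
          simp [hmm]

end Pool.Agent.P.MP_6327e0_co
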