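import Pool.Agent.P.MP_6327e0_co.Structure
import Pool.Agent.P.MP_6327e0_co.Cube4

open Finset
open scoped symmDiff

namespace Pool.Agent.P.MP_6327e0_co

variable {n : ℕ}

lemma eq_pair_of_card {D : Finset (Fin n)} {q r : Fin n} (hD : D.card = 2) (hq : q ∈ D)
    (hr : r ∈ D) (hqr : q ≠ r) : D = {q, r} := by
  symm
  apply eq_of_subset_of_card_le
  · intro x hx
    simp only [mem_insert, mem_singleton] at hx
    rcases hx with rfl | rfl <;> assumption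
  · rw [hD, card_pair hqr]

lemma lemT0 (𝓓 : Set (Finset (Fin n))) (h2 : ∀ D ∈ 𝓓, D.card ≤ 2)
    (h3 : ∀ D ∈ 𝓓, ∀ D' ∈ 𝓓, (D ∆ D').card ≤ 3) (x₀ : Fin n) :
    ∃ x D', ∀ D ∈ 𝓓, 2 ≤ (D.erase x).card → D = D' := by
  by_contra hcon
  push Not at hcon
  have key : ∀ x D', ∃ D ∈ 𝓓, D.card = 2 ∧ x ∉ D ∧ D ≠ D' := by
    intro x D'
    obtain ⟨D, hD, h4, h5⟩ := hcon x D'
    have h6 := h2 D hD
    have h7 : (D.erase x).card ≤ D.card := card_erase_le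
    refine ⟨D, hD, by omega, fun hx => ?_, h5⟩
    rw [card_erase_of_mem hx] at h4
    omega
  have meet : ∀ D ∈ 𝓓, ∀ D' ∈ 𝓓, D.card = 2 → D'.card = 2 → ∃ z, z ∈ D ∧ z ∈ D' := by
    intro D hD D' hD' h4 h5
    have h6 := card_symmDiff_add D D'
    have h7 := h3 D hD D' hD'
    obtain ⟨z, hz⟩ : (D ∩ D').Nonempty := by rw [← card_pos]; omega
    exact ⟨z, mem_inter.1 hz⟩
  obtain ⟨D0, hD0, c0, -, -⟩ := key x₀ ∅
  obtain ⟨p, q, hpq, rfl⟩ := card_eq_two.1 c0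
  obtain ⟨D1, hD1, c1, p1, -⟩ := key p ∅
  obtain ⟨D2, hD2, c2, p2, n2⟩ := key p D1
  obtain ⟨D3, hD3, c3, q3, -⟩ := key q ∅
  have q1 : q ∈ D1 := by
    obtain ⟨z, hz, hz'⟩ := meet _ hD0 _ hD1 c0 c1
    simp only [mem_insert, mem_singleton] at hz
    rcases hz with rfl | rfl
    · exact absurd hz' p1
    · exact hz'
  have q2 : q ∈ D2 := by
    obtain ⟨z, hz, hz'⟩ := meet _ hD0 _ hD2 c0 c2
    simp only [mem_insert, mem_singleton] at hz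
    rcases hz with rfl | rfl
    · exact absurd hz' p2
    · exact hz'
  have p3 : p ∈ D3 := by
    obtain ⟨z, hz, hz'⟩ := meet _ hD0 _ hD3 c0 c3
    simp only [mem_insert, mem_singleton] at hz
    rcases hz with rfl | rfl
    · exact hz'
    · exact absurd hz' q3
  obtain ⟨r, r3, r1⟩ := meet _ hD3 _ hD1 c3 c1
  obtain ⟨s, s3, s2⟩ := meet _ hD3 _ hD2 c3 c2
  have hqr : q ≠ r := fun h => q3 (h ▸ r3)
  have hqs : q ≠ s := fun h => q3 (h ▸ s3)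
  have hrs : r ≠ s := by
    intro h
    apply n2
    rw [eq_pair_of_card c1 q1 r1 hqr, eq_pair_of_card c2 q2 s2 hqs, h]
  have hpr : p ≠ r := fun h => p1 (h ▸ r1)
  have hps : p ≠ s := fun h => p2 (h ▸ s2)
  have : 2 < D3.card := two_lt_card.2 ⟨p, p3, r, r3, s, s3, hpr, hps, hrs⟩
  omega

lemma lemT (𝓒 : Set (Finset (Fin n))) (a : Finset (Fin n)) (h2 : ∀ C ∈ 𝓒, (C ∆ a).card ≤ 2)
    (h3 : ∀ C ∈ 𝓒, ∀ C' ∈ 𝓒, (C ∆ C').card ≤ 3) (x₀ : Fin n) :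
    ∃ x C', ∀ C ∈ 𝓒, 2 ≤ ((C ∆ a).erase x).card → C = C' := by
  obtain ⟨x, D', h⟩ := lemT0 {D | D ∆ a ∈ 𝓒}
    (fun D hD => by simpa using h2 _ hD)
    (fun D hD D' hD' => by rw [← symmDiff_tr D D' a]; exact h3 _ hD _ hD') x₀
  refine ⟨x, D' ∆ a, fun C hC h4 => ?_⟩
  rw [← h (C ∆ a) (by simpa using hC) h4, symmDiff_symmDiff_cancel_right]

lemma card_split (C D T : Finset (Fin n)) :
    (C ∆ D).card = ((C ∩ T) ∆ (D ∩ T)).card + ((C \ T) ∆ (D \ T)).card := by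
  rw [← card_sdiff_add_card_inter (C ∆ D) T, add_comm]
  congr 2
  · ext x; simp only [mem_inter, mem_symmDiff]; tauto
  · ext x; simp only [mem_sdiff, mem_symmDiff]; tauto

lemma card_sub_three {p q r : Fin n} (hpq : p ≠ q) (hpr : p ≠ r) (hqr : q ≠ r)
    {y : Finset (Fin n)} (hy : y ⊆ {p, q, r}) :
    y.card = (decide (p ∈ y)).toNat + (decide (q ∈ y)).toNat + (decide (r ∈ y)).toNat := by
  have h1 : y = ({p, q, r} : Finset (Fin n)).filter (fun x => x ∈ y) := by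
    rw [filter_mem_eq_inter, inter_eq_right.2 hy]
  conv_lhs => rw [h1]
  rw [card_filter, sum_insert (by simp [hpq, hpr]), sum_insert (by simp [hqr]), sum_singleton]
  by_cases hp : p ∈ y <;> by_cases hq : q ∈ y <;> by_cases hr : r ∈ y <;> simp [hp, hq, hr]

lemma hexB : ∀ a1 a2 a3 b1 b2 b3 c1 c2 c3 d1 d2 d3 : Bool,
    1 ≤ a1.toNat + a2.toNat + a3.toNat → a1.toNat + a2.toNat + a3.toNat ≤ 2 →
    1 ≤ b1.toNat + b2.toNat + b3.toNat → b1.toNat + b2.toNat + b3.toNat ≤ 2 →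
    1 ≤ c1.toNat + c2.toNat + c3.toNat → c1.toNat + c2.toNat + c3.toNat ≤ 2 →
    1 ≤ d1.toNat + d2.toNat + d3.toNat → d1.toNat + d2.toNat + d3.toNat ≤ 2 →
    2 ≤ (xor a1 b1).toNat + (xor a2 b2).toNat + (xor a3 b3).toNat →
    2 ≤ (xor c1 d1).toNat + (xor c2 d2).toNat + (xor c3 d3).toNat →
    (xor a1 c1).toNat + (xor a2 c2).toNat + (xor a3 c3).toNat ≤ 1 →
    (xor a1 d1).toNat + (xor a2 d2).toNat + (xor a3 d3).toNat ≤ 1 →
    (xor b1 c1).toNat + (xor b2 c2).toNat + (xor b3 c3).toNat ≤ 1 →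
    (xor b1 d1).toNat + (xor b2 d2).toNat + (xor b3 d3).toNat ≤ 1 → False := by
  decide +kernel

lemma decide_mem_symmDiff (x : Fin n) (A B : Finset (Fin n)) :
    decide (x ∈ A ∆ B) = xor (decide (x ∈ A)) (decide (x ∈ B)) := by
  by_cases hA : x ∈ A <;> by_cases hB : x ∈ B <;> simp [mem_symmDiff, hA, hB]

lemma hex {T a b c d : Finset (Fin n)} (hT : T.card = 3) (ha : a ⊆ T) (hb : b ⊆ T) (hc : c ⊆ T)
    (hd : d ⊆ T) (a1 : 1 ≤ a.card) (a2 : a.card ≤ 2) (b1 : 1 ≤ b.card) (b2 : b.card ≤ 2)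
    (c1 : 1 ≤ c.card) (c2 : c.card ≤ 2) (d1 : 1 ≤ d.card) (d2 : d.card ≤ 2)
    (hab : 2 ≤ (a ∆ b).card) (hcd : 2 ≤ (c ∆ d).card) (hac : (a ∆ c).card ≤ 1)
    (had : (a ∆ d).card ≤ 1) (hbc : (b ∆ c).card ≤ 1) (hbd : (b ∆ d).card ≤ 1) : False := by
  obtain ⟨p, q, r, hpq, hpr, hqr, rfl⟩ := card_eq_three.1 hT
  have hsd : ∀ {u v : Finset (Fin n)}, u ⊆ {p, q, r} → v ⊆ {p, q, r} → (u ∆ v).card =
      (xor (decide (p ∈ u)) (decide (p ∈ v))).toNat + (xor (decide (q ∈ u)) (decide (q ∈ v))).toNat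
        + (xor (decide (r ∈ u)) (decide (r ∈ v))).toNat := by
    intro u v hu hv
    rw [card_sub_three hpq hpr hqr (symmDiff_subset_union.trans (union_subset hu hv))]
    simp only [decide_mem_symmDiff]
  rw [hsd ha hb] at hab
  rw [hsd hc hd] at hcd
  rw [hsd ha hc] at hac
  rw [hsd ha hd] at had
  rw [hsd hb hc] at hbc
  rw [hsd hb hd] at hbd
  rw [card_sub_three hpq hpr hqr ha] at a1 a2
  rw [card_sub_three hpq hpr hqr hb] at b1 b2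
  rw [card_sub_three hpq hpr hqr hc] at c1 c2
  rw [card_sub_three hpq hpr hqr hd] at d1 d2
  exact hexB _ _ _ _ _ _ _ _ _ _ _ _ a1 a2 b1 b2 c1 c2 d1 d2 hab hcd hac had hbc hbd

lemma classify (hn : 4 ≤ n) (𝓒 : Set (Finset (Fin n))) (h0 : ∅ ∈ 𝓒)
    (h3 : ∀ C ∈ 𝓒, ∀ C' ∈ 𝓒, (C ∆ C').card ≤ 3) :
    (∃ a, ∀ C ∈ 𝓒, (C ∆ a).card ≤ 2) ∨ (∃ J : Finset (Fin n), J.card = 4 ∧ ∀ C ∈ 𝓒, C ⊆ J) := by
  by_contra hcon
  push Not at hcon
  obtain ⟨hA, hJ⟩ := hcon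
  have hle : ∀ C ∈ 𝓒, C.card ≤ 3 := fun C hC => by simpa [symmDiff_empty'] using h3 C hC _ h0
  obtain ⟨T, hT, hTc⟩ := hA ∅
  rw [symmDiff_empty'] at hTc
  have hT3 : T.card = 3 := by have := hle T hT; omega
  have hout : ∀ C ∈ 𝓒, (C \ T).card ≤ 1 ∧ ((C \ T).card = 1 → 1 ≤ (C ∩ T).card ∧
      (C ∩ T).card ≤ 2) := by
    intro C hC
    have h1 := card_symmDiff_add C T
    have h2 := card_sdiff_add_card_inter C T
    have h4 := hle C hC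
    have h5 := h3 C hC T hT
    omega
  have hex1 : ∀ z, z ∉ T → ∃ F ∈ 𝓒, ∃ z', z' ≠ z ∧ F \ T = {z'} := by
    intro z hz
    obtain ⟨F, hF, hF'⟩ := hJ (insert z T) (by rw [card_insert_of_notMem hz, hT3])
    obtain ⟨z', h1, h2⟩ := not_subset.1 hF'
    rw [mem_insert, not_or] at h2
    refine ⟨F, hF, z', h2.1, ?_⟩
    symm
    apply eq_of_subset_of_card_le (singleton_subset_iff.2 (mem_sdiff.2 ⟨h1, h2.2⟩))
    simpa using (hout F hF).1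
  have hfail : ∀ F ∈ 𝓒, ∀ z, F \ T = {z} →
      ∃ F' ∈ 𝓒, F' \ T = {z} ∧ 2 ≤ ((F ∩ T) ∆ (F' ∩ T)).card := by
    intro F hF z hz
    obtain ⟨F', hF', h1⟩ := hA (F ∩ T)
    have h2 := card_split F' (F ∩ T) T
    have h4 := card_split F' F T
    have h5 := h3 F' hF' F hF
    have e1 : F ∩ T ∩ T = F ∩ T := by rw [inter_assoc, inter_self]
    have e2 : (F ∩ T) \ T = ∅ := sdiff_eq_empty_iff_subset.2 inter_subset_right
    rw [e1, e2, symmDiff_empty'] at h2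
    rw [hz] at h4
    have h6 := (hout F' hF').1
    have h7 := card_symmDiff_add (F' \ T) {z}
    rw [card_singleton] at h7
    have h8 : ((F' \ T) ∩ {z}).card ≤ (F' \ T).card := card_le_card inter_subset_left
    refine ⟨F', hF', ?_, by rw [symmDiff_comm]; omega⟩
    have h9 : ((F' \ T) ∆ {z}).card = 0 := by omega
    rwa [card_eq_zero, Finset.symmDiff_eq_empty] at h9
  obtain ⟨z0, -, hz0⟩ := exists_mem_notMem_of_card_lt_card (s := T) (t := univ)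
    (by rw [hT3]; simp; omega)
  obtain ⟨F1, hF1, z1, -, e1⟩ := hex1 z0 hz0
  have hz1 : z1 ∉ T := (mem_sdiff.1 (e1 ▸ mem_singleton_self z1 : z1 ∈ F1 \ T)).2
  obtain ⟨F2, hF2, z2, hz12, e2⟩ := hex1 z1 hz1
  obtain ⟨G1, hG1, f1, g1⟩ := hfail F1 hF1 z1 e1
  obtain ⟨G2, hG2, f2, g2⟩ := hfail F2 hF2 z2 e2
  have hcross : ∀ U ∈ 𝓒, ∀ V ∈ 𝓒, U \ T = {z1} → V \ T = {z2} →
      ((U ∩ T) ∆ (V ∩ T)).card ≤ 1 := by
    intro U hU V hV eU eV
    have h1 := card_split U V T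
    have h2 := h3 U hU V hV
    rw [eU, eV] at h1
    have h4 := card_symmDiff_add {z1} {z2}
    rw [singleton_inter_of_notMem (by simpa using hz12.symm)] at h4
    simp only [card_singleton, card_empty] at h4
    omega
  have hsz : ∀ U ∈ 𝓒, ∀ z, U \ T = {z} → 1 ≤ (U ∩ T).card ∧ (U ∩ T).card ≤ 2 :=
    fun U hU z e => (hout U hU).2 (by rw [e, card_singleton])
  exact hex hT3 inter_subset_right inter_subset_right inter_subset_right inter_subset_right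
    (hsz _ hF1 _ e1).1 (hsz _ hF1 _ e1).2 (hsz _ hG1 _ f1).1 (hsz _ hG1 _ f1).2
    (hsz _ hF2 _ e2).1 (hsz _ hF2 _ e2).2 (hsz _ hG2 _ f2).1 (hsz _ hG2 _ f2).2 g1 g2
    (hcross _ hF1 _ hF2 e1 e2) (hcross _ hF1 _ hG2 e1 f2) (hcross _ hG1 _ hF2 f1 e2)
    (hcross _ hG1 _ hG2 f1 f2)

/-- the finite analysis inside a four-dimensional subcube -/
lemma cubeJ (𝓒 : Set (Finset (Fin n))) (J : Finset (Fin n)) (hJ : J.card = 4)
    (hs : ∀ C ∈ 𝓒, C ⊆ J) (h3 : ∀ C ∈ 𝓒, ∀ C' ∈ 𝓒, (C ∆ C').card ≤ 3) :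
    (∃ a x C', ∀ C ∈ 𝓒, 2 ≤ ((C ∆ a).erase x).card → C = C') ∨
    ((∀ y ⊆ J, y ∉ 𝓒 → J \ y ∈ 𝓒) ∧ (∀ y ∈ 𝓒, ∃ C ∈ 𝓒, 3 ≤ (y ∆ C).card) ∧
      (∀ C ∈ 𝓒, ∃ O ⊆ J, ∃ x ∈ J, ∃ C', ∀ y ∈ 𝓒, 2 ≤ ((y ∆ O).erase x).card →
        y = C ∨ y = C')) := by
  set e : Fin 4 ↪ Fin n := (J.orderEmbOfFin hJ).toEmbedding with he
  have huniv : univ.map e = J := map_orderEmbOfFin_univ J hJ
  have hsub : ∀ y : Finset (Fin 4), y.map e ⊆ J := fun y => by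
    rw [← huniv]; exact map_subset_map.2 (subset_univ _)
  have hsurj : ∀ y ⊆ J, ∃ y₀ : Finset (Fin 4), y₀.map e = y := by
    intro y hy
    rw [← huniv] at hy
    obtain ⟨u, -, hu⟩ := subset_map_iff.1 hy
    exact ⟨u, hu.symm⟩
  have hcompl : ∀ y : Finset (Fin 4), yᶜ.map e = J \ y.map e := by
    intro y
    rw [← huniv, compl_eq_univ_sdiff, Finset.map_sdiff]
  have hsd : ∀ y z : Finset (Fin 4), (y ∆ z).map e = y.map e ∆ z.map e := by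
    intro y z
    simp only [map_eq_image]
    exact image_symmDiff _ _ e.injective
  have hmiss : ∀ (y o : Finset (Fin 4)) (x : Fin 4),
      ((y.map e ∆ o.map e).erase (e x)).card = ((y ∆ o).erase x).card := by
    intro y o x
    rw [← hsd, ← map_erase, card_map]
  rcases cube4 (fun y => y.map e ∈ 𝓒) (fun y h1 h2 => by
      have h4 := h3 _ h1 _ h2
      have h5 : y ∆ yᶜ = univ := by
        ext x; simp only [mem_symmDiff, mem_compl, mem_univ]; tauto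
      rw [← hsd, card_map, h5] at h4
      simp at h4) with ⟨o, x, c, h⟩ | ⟨h1, h2, h4⟩
  · left
    refine ⟨o.map e, e x, c.map e, fun C hC h5 => ?_⟩
    obtain ⟨y, rfl⟩ := hsurj C (hs C hC)
    rw [hmiss] at h5
    rw [h y hC h5]
  · right
    refine ⟨fun y hy hy' => ?_, fun y hy => ?_, fun C hC => ?_⟩
    · obtain ⟨y, rfl⟩ := hsurj y hy
      rw [← hcompl]
      exact h1 y hy'
    · obtain ⟨y, rfl⟩ := hsurj y (hs y hy)
      obtain ⟨c, hc, h5⟩ := h2 y hy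
      exact ⟨c.map e, hc, by rwa [← hsd, card_map]⟩
    · obtain ⟨c, rfl⟩ := hsurj C (hs C hC)
      obtain ⟨o, x, c', h5⟩ := h4 c hC
      refine ⟨o.map e, hsub o, e x, orderEmbOfFin_mem J hJ x, c'.map e, fun y hy h6 => ?_⟩
      obtain ⟨y, rfl⟩ := hsurj y (hs y hy)
      rw [hmiss] at h6
      rcases h5 y hy h6 with h7 | h7
      · left; rw [h7]
      · right; rw [h7]

end Pool.Agent.P.MP_6327e0_co
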