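import Pool.Agent.P.MP_6327e0_co.Classify

open Finset
open scoped symmDiff FinsetFamily

namespace Pool.Agent.P.MP_6327e0_co

variable {n : ℕ}

lemma kk_cross (X : Finset (Fin n)) (𝒜 ℋ : Finset (Finset (Fin n))) (b l σ : ℕ)
    (h𝒜 : ∀ A ∈ 𝒜, A ⊆ X ∧ A.card = b) (hℋ : ∀ H ∈ ℋ, H ⊆ X ∧ H.card = l)
    (hc : ∀ A ∈ 𝒜, ∀ H ∈ ℋ, (A ∩ H).Nonempty) (hσ : σ ≤ b) (hl : l + b ≤ X.card)
    (h : (X.card - σ).choose (b - σ) ≤ 𝒜.card) :
    (X.card - σ).choose l + ℋ.card ≤ X.card.choose l := by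
  set 𝒜' := 𝒜.image (fun A => X \ A) with h𝒜'
  have hcard : 𝒜'.card = 𝒜.card := by
    apply card_image_of_injOn
    intro A hA B hB hAB
    have h1 := (h𝒜 A hA).1
    have h2 := (h𝒜 B hB).1
    simp only at hAB
    rw [← Finset.sdiff_sdiff_eq_self h1, hAB, Finset.sdiff_sdiff_eq_self h2]
  have hsized : (𝒜' : Set (Finset (Fin n))).Sized (X.card - b) := by
    intro A' hA'
    obtain ⟨A, hA, rfl⟩ := mem_image.1 (mem_coe.1 hA')
    rw [card_sdiff_of_subset (h𝒜 A hA).1, (h𝒜 A hA).2]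
  have hXn : X.card ≤ n := by simpa using card_le_univ X
  have hkk := kruskal_katona_lovasz_form (i := X.card - b - l) (r := X.card - b)
    (k := X.card - σ) (by omega) (by omega) (by omega) hsized (by
      rw [hcard]
      refine le_trans (le_of_eq ?_) h
      exact Nat.choose_symm_of_eq_add (by omega))
  rw [show X.card - b - (X.card - b - l) = l by omega] at hkk
  have hdisj : Disjoint (∂^[X.card - b - l] 𝒜') ℋ := by
    rw [disjoint_left]
    intro H hH hH'
    obtain ⟨A', hA', hsub, -⟩ := mem_shadow_iterate_iff_exists_sdiff.1 hH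
    obtain ⟨A, hA, rfl⟩ := mem_image.1 hA'
    obtain ⟨z, hz⟩ := hc A hA H hH'
    rw [mem_inter] at hz
    exact (mem_sdiff.1 (hsub hz.2)).2 hz.1
  have hsub : ∂^[X.card - b - l] 𝒜' ∪ ℋ ⊆ powersetCard l X := by
    intro H hH
    rw [mem_powersetCard]
    rcases mem_union.1 hH with hH | hH
    · have h1 := hsized.shadow_iterate (k := X.card - b - l) hH
      obtain ⟨A', hA', hsub, -⟩ := mem_shadow_iterate_iff_exists_sdiff.1 hH
      obtain ⟨A, hA, rfl⟩ := mem_image.1 hA'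
      exact ⟨hsub.trans sdiff_subset, by omega⟩
    · exact hℋ H hH
  have := card_le_card hsub
  rw [card_union_of_disjoint hdisj, card_powersetCard] at this
  omega

lemma choose_succ_le (a x e : ℕ) (h : (a + 1) * e ≤ x + 1) :
    a * (x + 1).choose e ≤ (a + 1) * x.choose e := by
  rcases Nat.eq_zero_or_pos a with rfl | ha
  · simp
  have h1 := Nat.choose_mul_succ_eq x e
  have h0 : (a + 1) * e = a * e + e := by ring
  have h4 : e ≤ a * e := Nat.le_mul_of_pos_left e ha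
  obtain ⟨y, hy⟩ : ∃ y, x + 1 = y + e := ⟨x + 1 - e, by omega⟩
  have h2 : 0 < y := by omega
  have h5 : x + 1 - e = y := by omega
  rw [h5] at h1
  have h3 : a * (x + 1).choose e * y ≤ (a + 1) * x.choose e * y := by
    have h6 : a * (x + 1) ≤ (a + 1) * y := by rw [hy]; nlinarith
    calc a * (x + 1).choose e * y = a * ((x + 1).choose e * y) := by ring
      _ = x.choose e * (a * (x + 1)) := by rw [← h1]; ring
      _ ≤ x.choose e * ((a + 1) * y) := Nat.mul_le_mul_left _ h6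
      _ = _ := by ring
  exact Nat.le_of_mul_le_mul_right h3 h2

lemma choose_add_le (x e : ℕ) (h : 2 * e ≤ x + 1) (w : ℕ) :
    (x + w).choose e ≤ 2 ^ w * x.choose e := by
  induction w with
  | zero => simp
  | succ w ih =>
    have := choose_succ_le 1 (x + w) e (by omega)
    rw [← add_assoc, pow_succ]
    nlinarith

lemma exists_step (p : ℕ → Prop) (a b : ℕ) (hab : a ≤ b) (ha : p a) (hb : ¬ p b) :
    ∃ s, a ≤ s ∧ s < b ∧ p s ∧ ¬ p (s + 1) := by
  induction b, hab using Nat.le_induction with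
  | base => exact absurd ha hb
  | succ b hab ih =>
    by_cases h : p b
    · exact ⟨b, hab, by omega, h, hb⟩
    · obtain ⟨s, h1, h2, h3⟩ := ih h
      exact ⟨s, h1, by omega, h3⟩

/-- the size assumptions -/
def Ctx (n d : ℕ) : Prop := 1 ≤ d ∧ 100 * d ≤ n ∧ ∀ x, n ≤ x + 12 * d → Big x (6 * d)

lemma expand {d : ℕ} (hctx : Ctx n d) (X : Finset (Fin n)) (hX : X.card + 4 = n)
    (𝒜 ℋ : Finset (Finset (Fin n))) (j t : ℕ) (g : ℤ)
    (h𝒜 : ∀ A ∈ 𝒜, A ⊆ X ∧ A.card = d - 1 + j) (hℋ : ∀ H ∈ ℋ, H ⊆ X ∧ H.card = d - 1)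
    (hc : ∀ A ∈ 𝒜, ∀ H ∈ ℋ, (A ∩ H).Nonempty) (hj : j ≤ 3 * d) (ht : 1 ≤ t) (hjt : j ≤ 2 * t)
    (hg : g ≤ (d : ℤ) - 2 - j - t) (hA : 𝒜.card ≤ N n g) :
    2 ^ (j + 5) * 𝒜.card + ℋ.card ≤ X.card.choose (d - 1) := by
  obtain ⟨hd, hn, hbig⟩ := hctx
  rcases Nat.eq_zero_or_pos 𝒜.card with h0 | h0
  · rw [h0, mul_zero, zero_add, ← card_powersetCard]
    exact card_le_card (fun H hH => mem_powersetCard.2 (hℋ H hH))
  have hg0 : 0 ≤ g := by
    by_contra h
    rw [N_neg n (by omega)] at hA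
    omega
  obtain ⟨e₁, he₁⟩ : ∃ e₁, d = e₁ + 2 + j := ⟨d - 2 - j, by omega⟩
  have h1 : 𝒜.card < (X.card - (2 * j + 1)).choose (d - 1 + j - (2 * j + 1)) := by
    rw [show d - 1 + j - (2 * j + 1) = e₁ by omega]
    have h2 := choose_add_le (X.card - (2 * j + 1)) e₁ (by omega) (2 * j + 5)
    rw [show X.card - (2 * j + 1) + (2 * j + 5) = n by omega] at h2
    have h3 := (hbig n (by omega)).le (2 * j + 5 + 1) (j := e₁) (j' := g) (by omega) (by omega)
    rw [N_nat] at h3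
    have h4 : 2 ^ (2 * j + 5) * (2 * 𝒜.card) ≤
        2 ^ (2 * j + 5) * (X.card - (2 * j + 1)).choose e₁ := by
      calc 2 ^ (2 * j + 5) * (2 * 𝒜.card) = 2 ^ (2 * j + 5 + 1) * 𝒜.card := by ring
        _ ≤ 2 ^ (2 * j + 5 + 1) * N n g := Nat.mul_le_mul_left _ hA
        _ ≤ _ := h3.trans h2
    have h5 := Nat.le_of_mul_le_mul_left h4 (by positivity)
    omega
  obtain ⟨s, hs1, hs2, hs3, hs4⟩ := exists_step
    (fun s => 𝒜.card < (X.card - s).choose (d - 1 + j - s)) (2 * j + 1) (d - 1 + j) (by omega) h1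
    (by simp only [Nat.sub_self, Nat.choose_zero_right]; omega)
  rw [not_lt] at hs4
  have hkk := kk_cross X 𝒜 ℋ (d - 1 + j) (d - 1) (s + 1) h𝒜 hℋ hc (by omega) (by omega) hs4
  have h2 := choose_add_le (X.card - (s + 1)) (d - 1 + j - s) (by omega) 1
  rw [show X.card - (s + 1) + 1 = X.card - s by omega] at h2
  have h3 := (hbig (X.card - (s + 1)) (by omega)).le (j + 6) (j := (d - 1 : ℕ))
    (j' := (d - 1 + j - s : ℕ)) (by omega) (by omega)
  rw [N_nat, N_nat] at h3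
  have h4 : 2 ^ (j + 5) * 𝒜.card ≤ (X.card - (s + 1)).choose (d - 1) := by
    calc 2 ^ (j + 5) * 𝒜.card ≤ 2 ^ (j + 5) * (2 ^ 1 * (X.card - (s + 1)).choose (d - 1 + j - s)) :=
          Nat.mul_le_mul_left _ (by omega)
      _ = 2 ^ (j + 6) * (X.card - (s + 1)).choose (d - 1 + j - s) := by ring
      _ ≤ _ := h3
  omega

/-- members with given trace on `J` and given size outside `J` -/
def cls (𝓕 : Finset (Finset (Fin n))) (J y : Finset (Fin n)) (b : ℕ) : Finset (Finset (Fin n)) :=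
  𝓕.filter (fun F => F ∩ J = y ∧ (F \ J).card = b)

lemma card_image_cls (𝓕 : Finset (Finset (Fin n))) (J y : Finset (Fin n)) (b : ℕ) :
    ((cls 𝓕 J y b).image (fun F => F \ J)).card = (cls 𝓕 J y b).card := by
  apply card_image_of_injOn
  intro F hF G hG hFG
  have h1 := (mem_filter.1 (mem_coe.1 hF)).2.1
  have h2 := (mem_filter.1 (mem_coe.1 hG)).2.1
  simp only at hFG
  rw [← sdiff_union_inter F J, ← sdiff_union_inter G J, hFG, h1, h2]

lemma image_cls_spec (𝓕 : Finset (Finset (Fin n))) (J y : Finset (Fin n)) (b : ℕ) :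
    ∀ A ∈ (cls 𝓕 J y b).image (fun F => F \ J), A ⊆ Jᶜ ∧ A.card = b := by
  intro A hA
  obtain ⟨F, hF, rfl⟩ := mem_image.1 hA
  refine ⟨fun x hx => mem_compl.2 (mem_sdiff.1 hx).2, (mem_filter.1 hF).2.2⟩

lemma card_cls_le (𝓕 : Finset (Finset (Fin n))) (J y : Finset (Fin n)) (b : ℕ) :
    (cls 𝓕 J y b).card ≤ Jᶜ.card.choose b := by
  rw [← card_image_cls, ← card_powersetCard]
  exact card_le_card (fun A hA => mem_powersetCard.2 (image_cls_spec 𝓕 J y b A hA))

lemma bad_cls {d : ℕ} (hctx : Ctx n d) {𝓕 : Finset (Finset (Fin n))} (hD : Diam 𝓕 (2 * d + 1))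
    {J y C : Finset (Fin n)} (hJ : J.card = 4) (hy : y ⊆ J) (hC : C ⊆ J)
    (hg : Good d 𝓕 C (d - 1)) (j : ℕ) (h3 : 3 ≤ (y ∆ C).card) (h4 : 4 ≤ (y ∆ C).card + j) :
    2 ^ (j + 5) * (cls 𝓕 J y (d - 1 + j)).card + (cls 𝓕 J C (d - 1)).card ≤
      Jᶜ.card.choose (d - 1) := by
  have hctx' := hctx
  obtain ⟨hd, hn, hbig⟩ := hctx
  have hr : (y ∆ C).card ≤ 4 := by
    rw [← hJ]
    exact card_le_card (symmDiff_subset_union.trans (union_subset hy hC))
  have hdist : ∀ F ∈ cls 𝓕 J y (d - 1 + j), (F ∆ C).card = (y ∆ C).card + (d - 1 + j) := by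
    intro F hF
    obtain ⟨-, h5, h6⟩ := mem_filter.1 hF
    rw [card_split F C J, h5, inter_eq_left.2 hC, sdiff_eq_empty_iff_subset.2 hC,
      symmDiff_empty', h6]
  rcases (cls 𝓕 J y (d - 1 + j)).eq_empty_or_nonempty with h0 | ⟨F₀, hF₀⟩
  · rw [h0]
    simpa using card_cls_le 𝓕 J C (d - 1)
  have hj : j ≤ 3 * d := by
    obtain ⟨G, hG, hGC⟩ := hg.exists_mem
    have h5 := card_symmDiff_triangle F₀ G C
    have h6 := hD F₀ (mem_filter.1 hF₀).1 G hG
    have h7 := hdist F₀ hF₀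
    omega
  have hJc : Jᶜ.card + 4 = n := by
    rw [card_compl, hJ, Fintype.card_fin]; omega
  rw [← card_image_cls, ← card_image_cls]
  refine expand hctx' Jᶜ hJc _ _ j (((y ∆ C).card + j - 2) / 2)
    ((((y ∆ C).card + (d - 1 + j) : ℕ) : ℤ) - 10 * (((y ∆ C).card + j - 2) / 2 : ℕ))
    (image_cls_spec _ _ _ _) (image_cls_spec _ _ _ _) ?_ hj (by omega) (by omega) (by omega) ?_
  · intro A hA H hH
    obtain ⟨F, hF, rfl⟩ := mem_image.1 hA
    obtain ⟨G, hG, rfl⟩ := mem_image.1 hH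
    obtain ⟨f1, f2, f3⟩ := mem_filter.1 hF
    obtain ⟨g1, g2, g3⟩ := mem_filter.1 hG
    have h5 := card_split F G J
    have h6 := card_symmDiff_add (F \ J) (G \ J)
    have h7 := hD F f1 G g1
    rw [f2, g2] at h5
    rw [← card_pos]
    omega
  · rw [card_image_cls]
    refine le_trans (card_le_card ?_) (hg.level_le (hbig n (by omega)) (by omega) hD (by omega)
      (((y ∆ C).card + j - 2) / 2) ((y ∆ C).card + (d - 1 + j)) (by omega) (by omega))
    intro F hF
    exact mem_filter.2 ⟨(mem_filter.1 hF).1, hdist F hF⟩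

theorem final_step {d : ℕ} (hctx : Ctx n d) {𝓕 : Finset (Finset (Fin n))}
    (hD : Diam 𝓕 (2 * d + 1)) {J : Finset (Fin n)} (hJ : J.card = 4) (𝓢 : Set (Finset (Fin n)))
    (hgood : ∀ C ∈ 𝓢, Good d 𝓕 C (d - 1)) (hs : ∀ C ∈ 𝓢, C ⊆ J)
    (h1 : ∀ y ⊆ J, y ∉ 𝓢 → J \ y ∈ 𝓢) (h2 : ∀ y ∈ 𝓢, ∃ C ∈ 𝓢, 3 ≤ (y ∆ C).card)
    (h3 : ∀ C ∈ 𝓢, ∃ O ⊆ J, ∃ x ∈ J, ∃ C', ∀ y ∈ 𝓢, 2 ≤ ((y ∆ O).erase x).card →
        y = C ∨ y = C') :
    ∃ A x, (𝓕.filter (fun F => d < ((F ∆ A).erase x).card)).card ≤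
      2 * (n - 3).choose (d - 1) := by
  classical
  have hctx' := hctx
  obtain ⟨hd, hn, hbig⟩ := hctx
  have hJc : Jᶜ.card + 4 = n := by
    rw [card_compl, hJ, Fintype.card_fin]; omega
  obtain ⟨C₀, hC₀, hmin⟩ := exists_min_image (J.powerset.filter (fun C => C ∈ 𝓢))
    (fun C => (cls 𝓕 J C (d - 1)).card) (by
      by_cases h : ∅ ∈ 𝓢
      · exact ⟨∅, mem_filter.2 ⟨empty_mem_powerset _, h⟩⟩
      · exact ⟨J \ ∅, mem_filter.2 ⟨mem_powerset.2 sdiff_subset, h1 ∅ (empty_subset _) h⟩⟩)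
  have hC₀' := (mem_filter.1 hC₀).2
  have hmin' : ∀ C ∈ 𝓢, (cls 𝓕 J C₀ (d - 1)).card ≤ (cls 𝓕 J C (d - 1)).card :=
    fun C hC => hmin C (mem_filter.2 ⟨mem_powerset.2 (hs C hC), hC⟩)
  obtain ⟨η, hη⟩ : ∃ η, Jᶜ.card.choose (d - 1) = η + (cls 𝓕 J C₀ (d - 1)).card :=
    ⟨Jᶜ.card.choose (d - 1) - (cls 𝓕 J C₀ (d - 1)).card, by
      have := card_cls_le 𝓕 J C₀ (d - 1); omega⟩
  set bcls : Finset (Fin n) → ℕ → Finset (Finset (Fin n)) :=
    fun y j => if y ∉ 𝓢 ∨ 1 ≤ j then cls 𝓕 J y (d - 1 + j) else ∅ with hbcls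
  have hb1 : ∀ y ⊆ J, ∀ j, (bcls y j).card ≤ η / 2 ^ (j + 5) := by
    intro y hy j
    rw [Nat.le_div_iff_mul_le (by positivity), mul_comm]
    simp only [hbcls]
    split_ifs with h
    · by_cases hyS : y ∈ 𝓢
      · obtain ⟨C, hC, h4⟩ := h2 y hyS
        have h5 : 1 ≤ j := h.resolve_left (not_not.2 hyS)
        have h6 := bad_cls hctx' hD hJ hy (hs C hC) (hgood C hC) j h4 (by omega)
        have h7 := hmin' C hC
        omega
      · have hC := h1 y hy hyS
        have h4 : (y ∆ (J \ y)).card = 4 := by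
          rw [← hJ]
          congr 1
          ext x
          simp only [mem_symmDiff, mem_sdiff]
          have := @hy x
          tauto
        have h6 := bad_cls hctx' hD hJ hy (hs _ hC) (hgood _ hC) j (by omega) (by omega)
        have h7 := hmin' _ hC
        omega
    · simp
  set Bad := J.powerset.biUnion (fun y => (range (n + 1)).biUnion (fun j => bcls y j)) with hBad
  have hBadc : Bad.card ≤ η := by
    have h4 : ∀ y ∈ J.powerset, ((range (n + 1)).biUnion (fun j => bcls y j)).card ≤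
        2 * (η / 32) := by
      intro y hy
      have h5 := geom_sum_le (fun j => η / 2 ^ (j + 5)) (fun r => by
        rw [show r + 1 + 5 = r + 5 + 1 by ring, pow_succ 2 (r + 5), ← Nat.div_div_eq_div_mul]
        exact Nat.mul_div_le _ _) (n + 1)
      exact card_biUnion_le.trans ((sum_le_sum (fun j _ => hb1 y (mem_powerset.1 hy) j)).trans h5)
    have h5 := (card_biUnion_le (s := J.powerset)
      (t := fun y => (range (n + 1)).biUnion (fun j => bcls y j))).trans (sum_le_sum h4)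
    rw [sum_const, card_powerset, hJ, smul_eq_mul] at h5
    rw [hBad]
    omega
  obtain ⟨O, hO, x, hx, C', h4⟩ := h3 C₀ hC₀'
  refine ⟨O, x, ?_⟩
  set low : Finset (Finset (Fin n)) :=
    if 2 ≤ d then cls 𝓕 J (J.erase x ∆ O) (d - 2) ∪ cls 𝓕 J (J ∆ O) (d - 2) else ∅ with hlow
  have hsub : 𝓕.filter (fun F => d < ((F ∆ O).erase x).card) ⊆
      Bad ∪ (cls 𝓕 J C₀ (d - 1) ∪ cls 𝓕 J C' (d - 1)) ∪ low := by
    intro F hF
    obtain ⟨hF, hF'⟩ := mem_filter.1 hF
    have e1 : ((F ∆ O).erase x).card = (((F ∩ J) ∆ O).erase x).card + (F \ J).card := by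
      rw [← card_union_of_disjoint]
      · congr 1
        ext z
        simp only [mem_erase, mem_symmDiff, mem_union, mem_inter, mem_sdiff]
        have := @hO z
        by_cases hz : z = x
        · subst hz; tauto
        · tauto
      · rw [disjoint_left]
        intro z hz hz'
        simp only [mem_erase, mem_symmDiff, mem_inter, mem_sdiff] at hz hz'
        have := @hO z
        tauto
    have e2 : ((F ∩ J) ∆ O).erase x ⊆ J.erase x :=
      erase_subset_erase _ (symmDiff_subset_union.trans (union_subset inter_subset_right hO))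
    have e3 : (J.erase x).card = 3 := by rw [card_erase_of_mem hx, hJ]
    have e4 := card_le_card e2
    have e5 : (F \ J).card ≤ n := by simpa using card_le_univ (F \ J)
    by_cases hb : d - 1 ≤ (F \ J).card
    · by_cases hb' : F ∩ J ∉ 𝓢 ∨ d ≤ (F \ J).card
      · refine mem_union_left _ (mem_union_left _ ?_)
        simp only [hBad, mem_biUnion]
        refine ⟨F ∩ J, mem_powerset.2 inter_subset_right, (F \ J).card - (d - 1),
          mem_range.2 (by omega), ?_⟩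
        simp only [hbcls]
        rw [if_pos (hb'.imp id (fun h => by omega))]
        exact mem_filter.2 ⟨hF, rfl, by omega⟩
      · push Not at hb'
        refine mem_union_left _ (mem_union_right _ ?_)
        rcases h4 _ hb'.1 (by omega) with h5 | h5
        · exact mem_union_left _ (mem_filter.2 ⟨hF, h5, by omega⟩)
        · exact mem_union_right _ (mem_filter.2 ⟨hF, h5, by omega⟩)
    · refine mem_union_right _ ?_
      simp only [hlow]
      rw [if_pos (by omega)]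
      have e6 : ((F ∩ J) ∆ O).erase x = J.erase x := eq_of_subset_of_card_le e2 (by omega)
      by_cases hxm : x ∈ (F ∩ J) ∆ O
      · refine mem_union_right _ (mem_filter.2 ⟨hF, ?_, by omega⟩)
        have : (F ∩ J) ∆ O = J := by
          rw [← insert_erase hxm, e6, insert_erase hx]
        rw [← symmDiff_symmDiff_cancel_right O (F ∩ J), this]
      · refine mem_union_left _ (mem_filter.2 ⟨hF, ?_, by omega⟩)
        rw [erase_eq_of_notMem hxm] at e6
        rw [← e6, symmDiff_symmDiff_cancel_right]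
  have h5 := card_le_card hsub
  have h6 := card_union_le (Bad ∪ (cls 𝓕 J C₀ (d - 1) ∪ cls 𝓕 J C' (d - 1))) low
  have h7 := card_union_le Bad (cls 𝓕 J C₀ (d - 1) ∪ cls 𝓕 J C' (d - 1))
  have h8 := card_union_le (cls 𝓕 J C₀ (d - 1)) (cls 𝓕 J C' (d - 1))
  have h9 := card_cls_le 𝓕 J C' (d - 1)
  have h10 : low.card + 2 * Jᶜ.card.choose (d - 1) ≤ 2 * (n - 3).choose (d - 1) := by
    rw [show n - 3 = Jᶜ.card + 1 by omega]
    simp only [hlow]
    split_ifs with h
    · have h11 := card_union_le (cls 𝓕 J (J.erase x ∆ O) (d - 2)) (cls 𝓕 J (J ∆ O) (d - 2))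
      have h12 := card_cls_le 𝓕 J (J.erase x ∆ O) (d - 2)
      have h13 := card_cls_le 𝓕 J (J ∆ O) (d - 2)
      have h14 := Nat.choose_succ_succ' Jᶜ.card (d - 2)
      rw [show d - 2 + 1 = d - 1 by omega] at h14
      omega
    · rw [show d - 1 = 0 by omega]
      simp
  omega

end Pool.Agent.P.MP_6327e0_co
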