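import Pool.Agent.P.MP_6327e0_co.Shift

open Finset
open scoped symmDiff

namespace Pool.Agent.P.MP_6327e0_co

variable {n : ℕ}

/-- the largest initial segment with at most `2 r` elements -/
def segT (Z : Finset (Fin n)) (r : ℕ) : Finset (Fin n) :=
  seg Z (Nat.findGreatest (fun m => (seg Z m).card ≤ 2 * r) n)

lemma seg_zero (Z : Finset (Fin n)) : seg Z 0 = ∅ := by ext x; simp [mem_seg]

lemma card_segT (Z : Finset (Fin n)) (r : ℕ) : (segT Z r).card ≤ 2 * r := by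
  unfold segT
  exact Nat.findGreatest_spec (P := fun m => (seg Z m).card ≤ 2 * r) (Nat.zero_le n)
    (by simp [seg_zero])

lemma seg_subset_segT (Z : Finset (Fin n)) {r m : ℕ} (h : (seg Z m).card ≤ 2 * r) :
    seg Z m ⊆ segT Z r := by
  have h1 : seg Z (min m n) = seg Z m := by
    ext x
    simp only [mem_seg, lt_min_iff]
    have := x.isLt
    tauto
  have h2 : min m n ≤ Nat.findGreatest (fun m => (seg Z m).card ≤ 2 * r) n :=
    Nat.le_findGreatest (min_le_right _ _) (by simpa [h1] using h)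
  intro x hx
  rw [← h1] at hx
  unfold segT
  rw [mem_seg] at hx ⊢
  exact ⟨hx.1, lt_of_lt_of_le hx.2 h2⟩

lemma segT_disjoint (Z : Finset (Fin n)) (r : ℕ) {x : Fin n} (hx : x ∈ segT Z r) : x ∉ Z :=
  (mem_seg.1 hx).1

open Classical in
lemma bad_walk {M : ℕ} (hB : Big n M) (Z : Finset (Fin n)) (𝒜 : Finset (Finset (Fin n))) (a : ℕ)
    (ha : a ≤ M) (h𝒜 : ∀ F ∈ 𝒜, F.card = a) (t : ℕ) (ht : 1 ≤ t) :
    4 * (𝒜.filter (fun F => ∃ r, 20 * t ≤ r ∧ r ≤ (F ∩ segT Z r).card)).card ≤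
      N n ((a : ℤ) - 10 * t) := by
  have hsub : 𝒜.filter (fun F => ∃ r, 20 * t ≤ r ∧ r ≤ (F ∩ segT Z r).card) ⊆
      (range (a + 1)).biUnion (fun i =>
        𝒜.filter (fun F => 20 * t + i ≤ (F ∩ segT Z (20 * t + i)).card)) := by
    intro F hF
    rw [mem_filter] at hF
    obtain ⟨hF1, r, hr1, hr2⟩ := hF
    have h1 : (F ∩ segT Z r).card ≤ a := by
      rw [← h𝒜 F hF1]; exact card_le_card inter_subset_left
    rw [mem_biUnion]
    refine ⟨r - 20 * t, mem_range.2 (by omega), mem_filter.2 ⟨hF1, ?_⟩⟩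
    rwa [show 20 * t + (r - 20 * t) = r by omega]
  set f : ℕ → ℕ := fun i => 2 ^ (2 * (20 * t + i)) * N n ((a : ℤ) - (20 * t + i : ℕ)) with hf
  have h2 : ∀ i, 2 * f (i + 1) ≤ f i := by
    intro i
    have := hB.le 3 (j := (a : ℤ) - (20 * t + i : ℕ)) (j' := (a : ℤ) - (20 * t + (i + 1) : ℕ))
      (by omega) (by omega)
    simp only [hf]
    calc 2 * (2 ^ (2 * (20 * t + (i + 1))) * N n ((a : ℤ) - (20 * t + (i + 1) : ℕ)))
        = 2 ^ (2 * (20 * t + i)) * (2 ^ 3 * N n ((a : ℤ) - (20 * t + (i + 1) : ℕ))) := by ring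
      _ ≤ _ := Nat.mul_le_mul_left _ this
  have h3 : (𝒜.filter (fun F => ∃ r, 20 * t ≤ r ∧ r ≤ (F ∩ segT Z r).card)).card ≤ 2 * f 0 := by
    refine (card_le_card hsub).trans (card_biUnion_le.trans ?_)
    refine le_trans (sum_le_sum ?_) (geom_sum_le f h2 (a + 1))
    intro i _
    refine (card_filter_inter_le 𝒜 a h𝒜 _ _).trans ?_
    apply Nat.mul_le_mul_right
    exact Nat.pow_le_pow_right (by norm_num) (card_segT Z _)
  have h4 := hB.le (40 * t + 3) (j := (a : ℤ) - 10 * t) (j' := (a : ℤ) - (20 * t + 0 : ℕ))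
    (by omega) (by omega)
  calc 4 * _ ≤ 4 * (2 * f 0) := Nat.mul_le_mul_left _ h3
    _ = 2 ^ (40 * t + 3) * N n ((a : ℤ) - (20 * t + 0 : ℕ)) := by simp only [hf]; ring
    _ ≤ _ := h4

lemma card_Z_lt {M : ℕ} (hB : Big n M) (ℬ : Finset (Finset (Fin n))) (b : ℕ)
    (hb : b ≤ M) (hℬ : ∀ G ∈ ℬ, G.card = b) (t : ℕ) (ht : 1 ≤ t)
    (hBl : N n ((b : ℤ) - 10 * t) ≤ ℬ.card) :
    (univ.filter (fun i => ℬ.card < 256 * deg ℬ i)).card < 10240 * t := by
  by_contra hcon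
  rw [not_lt] at hcon
  obtain ⟨Z', hZ', hZc⟩ := exists_subset_card_eq hcon
  have h1 : Z'.card * ℬ.card < 256 * ∑ i ∈ Z', deg ℬ i := by
    rw [mul_sum]
    have : Z'.card * ℬ.card = ∑ i ∈ Z', ℬ.card := by simp
    rw [this]
    apply sum_lt_sum_of_nonempty
    · rw [← card_pos]; omega
    · intro i hi
      exact (mem_filter.1 (hZ' hi)).2
  rw [← sum_card_inter] at h1
  set c := (ℬ.filter (fun G => 20 * t ≤ (G ∩ Z').card)).card with hc
  have h2 : ∑ G ∈ ℬ, (G ∩ Z').card ≤ 20 * t * ℬ.card + Z'.card * c := by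
    rw [← sum_filter_add_sum_filter_not ℬ (fun G => 20 * t ≤ (G ∩ Z').card), add_comm]
    apply add_le_add
    · calc ∑ G ∈ ℬ.filter (fun G => ¬ 20 * t ≤ (G ∩ Z').card), (G ∩ Z').card
          ≤ ∑ G ∈ ℬ.filter (fun G => ¬ 20 * t ≤ (G ∩ Z').card), 20 * t := by
            apply sum_le_sum
            intro G hG
            have := (mem_filter.1 hG).2
            omega
        _ = (ℬ.filter (fun G => ¬ 20 * t ≤ (G ∩ Z').card)).card * (20 * t) := by simp
        _ ≤ ℬ.card * (20 * t) := Nat.mul_le_mul_right _ (card_filter_le _ _)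
        _ = _ := by ring
    · calc ∑ G ∈ ℬ.filter (fun G => 20 * t ≤ (G ∩ Z').card), (G ∩ Z').card
          ≤ ∑ G ∈ ℬ.filter (fun G => 20 * t ≤ (G ∩ Z').card), Z'.card := by
            apply sum_le_sum
            intro G _
            exact card_le_card inter_subset_right
        _ = _ := by simp [hc, mul_comm]
  have h3 := card_filter_inter_le ℬ b hℬ Z' (20 * t)
  rw [← hc, hZc] at h3
  rw [hZc] at h1 h2
  have h4 := hB.le (10240 * t + 9) (j := (b : ℤ) - 10 * t) (j' := (b : ℤ) - (20 * t : ℕ))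
    (by omega) (by omega)
  have h5 : 512 * c ≤ ℬ.card := by
    calc 512 * c ≤ 512 * (2 ^ (10240 * t) * N n ((b : ℤ) - (20 * t : ℕ))) :=
          Nat.mul_le_mul_left _ h3
      _ = 2 ^ (10240 * t + 9) * N n ((b : ℤ) - (20 * t : ℕ)) := by ring
      _ ≤ _ := h4.trans hBl
  have h6 : t * (512 * c) ≤ t * ℬ.card := Nat.mul_le_mul_left _ h5
  nlinarith

lemma global_shifted {M : ℕ} (hB : Big n M) (a b t : ℕ) (ha : a ≤ M) (hb : b ≤ M) (ht : 1 ≤ t)
    (𝒜 ℬ : Finset (Finset (Fin n))) (h𝒜 : ∀ F ∈ 𝒜, F.card = a) (hℬ : ∀ G ∈ ℬ, G.card = b)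
    (hne : ℬ.Nonempty) (hBl : N n ((b : ℤ) - 10 * t) ≤ ℬ.card) (hH : Hom ℬ)
    (hc : ∀ F ∈ 𝒜, ∀ G ∈ ℬ, t ≤ (F ∩ G).card)
    (hsh : ∀ i j : Fin n, i < j → 256 * deg ℬ i ≤ ℬ.card → 256 * deg ℬ j ≤ ℬ.card →
      ∀ G ∈ ℬ, j ∈ G → i ∉ G → insert i (G.erase j) ∈ ℬ) :
    𝒜.card ≤ N n ((a : ℤ) - 10 * t) := by
  classical
  by_contra hcon
  rw [not_le] at hcon
  set Z : Finset (Fin n) := univ.filter (fun i => ℬ.card < 256 * deg ℬ i) with hZ
  have hZc : Z.card < 10240 * t := card_Z_lt hB ℬ b hb hℬ t ht hBl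
  have hA1 := bad_walk hB Z 𝒜 a ha h𝒜 t ht
  have hB1 := bad_walk hB Z ℬ b hb hℬ t ht
  have hA2 : 4 * (𝒜.filter (fun F => 20 * t ≤ (F ∩ Z).card)).card ≤ N n ((a : ℤ) - 10 * t) := by
    have h3 := card_filter_inter_le 𝒜 a h𝒜 Z (20 * t)
    have h4 := hB.le (Z.card + 2) (j := (a : ℤ) - 10 * t) (j' := (a : ℤ) - (20 * t : ℕ))
      (by omega) (by omega)
    calc 4 * _ ≤ 4 * (2 ^ Z.card * N n ((a : ℤ) - (20 * t : ℕ))) := Nat.mul_le_mul_left _ h3
      _ = 2 ^ (Z.card + 2) * N n ((a : ℤ) - (20 * t : ℕ)) := by ring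
      _ ≤ _ := h4
  obtain ⟨F, hF, hF'⟩ := exists_mem_notMem_of_card_lt_card (s :=
    𝒜.filter (fun F => ∃ r, 20 * t ≤ r ∧ r ≤ (F ∩ segT Z r).card) ∪
      𝒜.filter (fun F => 20 * t ≤ (F ∩ Z).card)) (t := 𝒜)
    (lt_of_le_of_lt (card_union_le _ _) (by omega))
  simp only [mem_union, mem_filter, not_or, not_and, not_exists, not_le] at hF'
  have hF1 := hF'.1 hF
  have hF2 := hF'.2 hF
  set S : Finset (Fin n) := segT Z (20 * t) ∪ (F ∩ Z) with hS
  have hSc : S.card ≤ 60 * t := by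
    have := card_union_le (segT Z (20 * t)) (F ∩ Z)
    have := card_segT Z (20 * t)
    rw [hS]
    omega
  have hB2 : 2 * (ℬ.filter (fun G => t ≤ (G ∩ S).card)).card ≤ ℬ.card := by
    have h1 := markov ℬ hH S t
    have h2 : S.card * ℬ.card ≤ 60 * t * ℬ.card := Nat.mul_le_mul_right _ hSc
    have h3 : t * (128 * (ℬ.filter (fun G => t ≤ (G ∩ S).card)).card) ≤ t * (60 * ℬ.card) := by
      nlinarith
    have h4 := Nat.le_of_mul_le_mul_left h3 ht
    omega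
  have hpos : 0 < ℬ.card := card_pos.2 hne
  obtain ⟨G, hG, hG'⟩ := exists_mem_notMem_of_card_lt_card (s :=
    ℬ.filter (fun F => ∃ r, 20 * t ≤ r ∧ r ≤ (F ∩ segT Z r).card) ∪
      ℬ.filter (fun G => t ≤ (G ∩ S).card)) (t := ℬ)
    (lt_of_le_of_lt (card_union_le _ _) (by omega))
  simp only [mem_union, mem_filter, not_or, not_and, not_exists, not_le] at hG'
  have hG1 := hG'.1 hG
  have hG2 := hG'.2 hG
  have hnZ : ∀ i, i ∉ Z → 256 * deg ℬ i ≤ ℬ.card := by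
    intro i hi
    simpa [hZ] using hi
  obtain ⟨m, hm⟩ := walk Z ℬ F t
    (fun i j hij hi hj => hsh i j hij (hnZ i hi) (hnZ j hj)) (hc F hF) G hG
  have hZS : (F ∩ G ∩ Z).card ≤ (G ∩ S).card := by
    apply card_le_card
    intro x hx
    simp only [hS, mem_inter, mem_union] at hx ⊢
    tauto
  by_cases hI : (seg Z m).card ≤ 2 * (20 * t)
  · have h1 := seg_subset_segT Z hI
    have h2 : (G ∩ seg Z m).card + (F ∩ G ∩ Z).card ≤ (G ∩ S).card := by
      rw [← card_union_of_disjoint]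
      · apply card_le_card
        intro x hx
        simp only [hS, mem_inter, mem_union] at hx ⊢
        have := @h1 x
        tauto
      · rw [disjoint_left]
        intro x hx hx'
        exact (mem_seg.1 (mem_inter.1 hx).2).1 (mem_inter.1 hx').2
    have h3 : (F ∩ seg Z m).card ≤ (seg Z m).card := card_le_card inter_subset_right
    omega
  · have key : ∀ H : Finset (Fin n), (∀ r, 20 * t ≤ r → (H ∩ segT Z r).card < r) →
        2 * (H ∩ seg Z m).card < (seg Z m).card := by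
      intro H hH
      by_contra h1
      rw [not_lt] at h1
      have h2 := hH (H ∩ seg Z m).card (by omega)
      have h3 : (H ∩ seg Z m).card ≤ (H ∩ segT Z (H ∩ seg Z m).card).card :=
        card_le_card (inter_subset_inter (Subset.refl _) (seg_subset_segT Z h1))
      omega
    have h1 := key F hF1
    have h2 := key G hG1
    omega

/-- The global cross-intersection lemma. -/
theorem global {M : ℕ} (hB : Big n M) (a b t : ℕ) (ha : a ≤ M) (hb : b ≤ M) (ht : 1 ≤ t)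
    (𝒜 ℬ : Finset (Finset (Fin n))) (h𝒜 : ∀ F ∈ 𝒜, F.card = a) (hℬ : ∀ G ∈ ℬ, G.card = b)
    (hne : ℬ.Nonempty) (hBl : N n ((b : ℤ) - 10 * t) ≤ ℬ.card) (hH : Hom ℬ)
    (hc : ∀ F ∈ 𝒜, ∀ G ∈ ℬ, t ≤ (F ∩ G).card) :
    𝒜.card ≤ N n ((a : ℤ) - 10 * t) := by
  induction hw : wt ℬ using Nat.strong_induction_on generalizing 𝒜 ℬ with
  | _ w ih =>
  by_cases hsh : ∀ i j : Fin n, i < j → 256 * deg ℬ i ≤ ℬ.card → 256 * deg ℬ j ≤ ℬ.card →
      ∀ G ∈ ℬ, j ∈ G → i ∉ G → insert i (G.erase j) ∈ ℬ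
  · exact global_shifted hB a b t ha hb ht 𝒜 ℬ h𝒜 hℬ hne hBl hH hc hsh
  · push Not at hsh
    obtain ⟨i, j, hij, hi, hj, G, hG, hjG, hiG, hn⟩ := hsh
    have hlt := wt_shift_lt hij hG hjG hiG hn
    rw [← card_shift i j 𝒜]
    refine ih _ (hw ▸ hlt) (shift i j 𝒜) (shift i j ℬ) (shift_sized i j h𝒜) (shift_sized i j hℬ)
      (hne.image _) (by rwa [card_shift]) ?_ (shift_cross i j hc) rfl
    intro k
    rw [card_shift]
    by_cases hk : k = i
    · subst hk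
      have := deg_shift_self k j ℬ
      omega
    · have := deg_shift_ne (j := j) hk ℬ
      have := hH k
      omega

end Pool.Agent.P.MP_6327e0_co
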