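import Pool.Agent.P.MP_6327e0_co.Final

open Finset
open scoped symmDiff

namespace Pool.Agent.P.MP_6327e0_co

variable {n : ℕ}

lemma erase_cases (D : Finset (Fin n)) (x : Fin n) :
    (x ∈ D ∧ (D.erase x).card + 1 = D.card ∧ (D.erase x).card = (D ∆ {x}).card) ∨
    (x ∉ D ∧ (D.erase x).card = D.card ∧ (D.erase x).card + 1 = (D ∆ {x}).card) := by
  have h1 := card_symmDiff_add D {x}
  by_cases hx : x ∈ D
  · left
    rw [inter_singleton_of_mem hx] at h1
    have h2 := card_erase_add_one hx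
    simp only [card_singleton] at h1
    exact ⟨hx, h2, by omega⟩
  · right
    rw [inter_singleton_of_notMem hx] at h1
    simp only [card_singleton, card_empty] at h1
    rw [erase_eq_of_notMem hx]
    exact ⟨hx, rfl, by omega⟩

lemma slack {d : ℕ} (hctx : Ctx n d) {𝓕 : Finset (Finset (Fin n))} (hD : Diam 𝓕 (2 * d + 1))
    (a : Finset (Fin n)) (x : Fin n) (C' : Finset (Fin n))
    (h0 : ∀ C, Good d 𝓕 C d → ((C ∆ a).erase x).card = 0)
    (h1 : ∀ C, Good d 𝓕 C (d - 1) → 2 ≤ ((C ∆ a).erase x).card → C = C') :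
    (𝓕.filter (fun F => d < ((F ∆ a).erase x).card)).card ≤ 2 * (n - 3).choose (d - 1) := by
  classical
  obtain ⟨hd, hn, hbig⟩ := hctx
  set 𝓡 := 𝓕.filter (fun F => (∀ C, Good d 𝓕 C d → (F ∆ C).card ≠ d) ∧
    (∀ C, Good d 𝓕 C (d - 1) → (F ∆ C).card ≠ d - 1)) with h𝓡
  have hR : 10 * 𝓡.card ≤ n.choose (d - 1) := by
    by_contra hcon
    rw [not_le, ← N_of_eq n (d - 1) (j := (d : ℤ) - 1) (by omega)] at hcon
    obtain ⟨C, hC | hC⟩ := structure_thm (hbig n (by omega)) hd (by omega)
      (hD.mono (filter_subset _ _)) hcon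
    · obtain ⟨F, hF, hF'⟩ := hC.exists_mem
      exact (mem_filter.1 hF).2.1 C (hC.mono (filter_subset _ _)) hF'
    · obtain ⟨F, hF, hF'⟩ := hC.exists_mem
      exact (mem_filter.1 hF).2.2 C (hC.mono (filter_subset _ _)) hF'
  have htri : ∀ F C : Finset (Fin n), ((F ∆ a).erase x).card ≤
      (F ∆ C).card + ((C ∆ a).erase x).card := by
    intro F C
    refine le_trans (card_le_card ?_) (card_union_le _ _)
    intro z hz
    simp only [mem_erase, mem_symmDiff, mem_union] at hz ⊢
    tauto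
  have hsub : 𝓕.filter (fun F => d < ((F ∆ a).erase x).card) ⊆
      𝓡 ∪ 𝓕.filter (fun F => (F ∆ C').card = d - 1) := by
    intro F hF
    obtain ⟨hF, hF'⟩ := mem_filter.1 hF
    by_cases h2 : (F ∆ C').card = d - 1
    · exact mem_union_right _ (mem_filter.2 ⟨hF, h2⟩)
    · refine mem_union_left _ (mem_filter.2 ⟨hF, fun C hC h3 => ?_, fun C hC h3 => ?_⟩)
      · have := htri F C
        have := h0 C hC
        omega
      · have := htri F C
        exact h2 (h1 C hC (by omega) ▸ h3)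
  have hS : (𝓕.filter (fun F => (F ∆ C').card = d - 1)).card ≤ n.choose (d - 1) := by
    rw [← card_filter_tr C' 𝓕 (fun F => F.card = d - 1)]
    have : n.choose (d - 1) = (powersetCard (d - 1) (univ : Finset (Fin n))).card := by simp
    rw [this]
    exact card_le_card (fun G hG => mem_powersetCard.2 ⟨subset_univ _, (mem_filter.1 hG).2⟩)
  have h2 := (card_le_card hsub).trans (card_union_le _ _)
  have h3 := choose_succ_le 10 (n - 3) (d - 1) (by omega)
  have h4 := choose_succ_le 10 (n - 3 + 1) (d - 1) (by omega)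
  have h5 := choose_succ_le 10 (n - 3 + 1 + 1) (d - 1) (by omega)
  rw [show n - 3 + 1 + 1 + 1 = n by omega] at h5
  omega

lemma odd_aux {d : ℕ} (hctx : Ctx n d) {𝓕 : Finset (Finset (Fin n))} (hD : Diam 𝓕 (2 * d + 1))
    (h : (∀ C, ¬ Good d 𝓕 C (d - 1)) ∨ Good d 𝓕 ∅ (d - 1)) :
    ∃ A x, (𝓕.filter (fun F => d < ((F ∆ A).erase x).card)).card ≤
      2 * (n - 3).choose (d - 1) := by
  have hctx' := hctx
  obtain ⟨hd, hn, hbig⟩ := hctx
  have hB := hbig n (by omega)
  have x₀ : Fin n := ⟨0, by omega⟩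
  have d00 : ∀ C C', Good d 𝓕 C d → Good d 𝓕 C' d → (C ∆ C').card ≤ 1 := by
    intro C C' h1 h2
    have := h1.dist hB h2 (by omega) hD le_rfl (by omega) (by omega)
    omega
  have d10 : ∀ C C', Good d 𝓕 C (d - 1) → Good d 𝓕 C' d → (C ∆ C').card ≤ 2 := by
    intro C C' h1 h2
    have := h1.dist hB h2 (by omega) hD (by omega) (by omega) (by omega)
    omega
  have d11 : ∀ C ∈ {C | Good d 𝓕 C (d - 1)}, ∀ C' ∈ {C | Good d 𝓕 C (d - 1)},
      (C ∆ C').card ≤ 3 := by
    intro C h1 C' h2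
    have := Good.dist hB h1 h2 (by omega) hD (by omega) (by omega) (by omega)
    omega
  by_cases h0 : ∃ A, Good d 𝓕 A d
  · obtain ⟨A, hA⟩ := h0
    by_cases h1 : ∃ A', Good d 𝓕 A' d ∧ A' ≠ A
    · obtain ⟨A', hA', hne⟩ := h1
      have h2 : (A ∆ A').card = 1 := by
        have := d00 A A' hA hA'
        have : 0 < (A ∆ A').card := card_pos.2 (Finset.symmDiff_nonempty.2 hne.symm)
        omega
      obtain ⟨x, hx⟩ := card_eq_one.1 h2
      have h3 : ∀ C : Finset (Fin n), (C ∆ A) ∆ {x} = C ∆ A' := by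
        intro C
        rw [← hx, symmDiff_assoc, symmDiff_symmDiff_cancel_left]
      refine ⟨A, x, slack hctx' hD A x ∅ (fun C hC => ?_) (fun C hC h4 => ?_)⟩
      · have h5 := erase_cases (C ∆ A) x
        have h6 := d00 C A hC hA
        have h7 := d00 C A' hC hA'
        rw [h3] at h5
        omega
      · have h5 := erase_cases (C ∆ A) x
        have h6 := d10 C A hC hA
        have h7 := d10 C A' hC hA'
        rw [h3] at h5
        omega
    · push Not at h1
      obtain ⟨x, C', h2⟩ := lemT {C | Good d 𝓕 C (d - 1)} A (fun C hC => d10 C A hC hA) d11 x₀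
      refine ⟨A, x, slack hctx' hD A x C' (fun C hC => ?_) h2⟩
      rw [h1 C hC]
      simp
  · push Not at h0
    rcases h with h | h
    · exact ⟨∅, x₀, slack hctx' hD ∅ x₀ ∅ (fun C hC => absurd hC (h0 C))
        (fun C hC => absurd hC (h C))⟩
    · rcases classify (by omega) {C | Good d 𝓕 C (d - 1)} h d11 with ⟨a, ha⟩ | ⟨J, hJ, hs⟩
      · obtain ⟨x, C', h2⟩ := lemT {C | Good d 𝓕 C (d - 1)} a ha d11 x₀
        exact ⟨a, x, slack hctx' hD a x C' (fun C hC => absurd hC (h0 C)) h2⟩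
      · rcases cubeJ _ J hJ hs d11 with ⟨a, x, C', h2⟩ | ⟨h1, h2, h3⟩
        · exact ⟨a, x, slack hctx' hD a x C' (fun C hC => absurd hC (h0 C)) h2⟩
        · exact final_step hctx' hD hJ _ (fun C hC => hC) hs h1 h2 h3

theorem odd_main {d : ℕ} (hctx : Ctx n d) {𝓕 : Finset (Finset (Fin n))}
    (hD : Diam 𝓕 (2 * d + 1)) :
    ∃ A x, (𝓕.filter (fun F => d < ((F ∆ A).erase x).card)).card ≤
      2 * (n - 3).choose (d - 1) := by
  by_cases h : ∀ C, ¬ Good d 𝓕 C (d - 1)
  · exact odd_aux hctx hD (Or.inl h)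
  · push Not at h
    obtain ⟨C, hC⟩ := h
    obtain ⟨A, x, h⟩ := odd_aux hctx (hD.tr C)
      (Or.inr (Good.translate C (by rwa [empty_symmDiff'])))
    refine ⟨C ∆ A, x, ?_⟩
    rw [card_filter_tr] at h
    simpa only [symmDiff_assoc] using h

theorem odd_zero (hn : 0 < n) {𝓕 : Finset (Finset (Fin n))} (hD : Diam 𝓕 1) :
    ∃ A x, (𝓕.filter (fun F => 0 < ((F ∆ A).erase x).card)).card = 0 := by
  by_cases h : ∃ A ∈ 𝓕, ∃ A' ∈ 𝓕, A ≠ A'
  · obtain ⟨A, hA, A', hA', hne⟩ := h
    have h2 : (A ∆ A').card = 1 := by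
      have := hD A hA A' hA'
      have : 0 < (A ∆ A').card := card_pos.2 (Finset.symmDiff_nonempty.2 hne)
      omega
    obtain ⟨x, hx⟩ := card_eq_one.1 h2
    refine ⟨A, x, ?_⟩
    rw [card_eq_zero, filter_eq_empty_iff]
    intro C hC
    have h3 : (C ∆ A) ∆ {x} = C ∆ A' := by
      rw [← hx, symmDiff_assoc, symmDiff_symmDiff_cancel_left]
    have h5 := erase_cases (C ∆ A) x
    have h6 := hD C hC A hA
    have h7 := hD C hC A' hA'
    rw [h3] at h5
    omega
  · push Not at h
    rcases 𝓕.eq_empty_or_nonempty with rfl | ⟨A, hA⟩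
    · exact ⟨∅, ⟨0, hn⟩, by simp⟩
    · refine ⟨A, ⟨0, hn⟩, ?_⟩
      rw [card_eq_zero, filter_eq_empty_iff]
      intro C hC
      rw [h C hC A hA]
      simp

/-- restriction to the last `n` coordinates -/
def res (S : Finset (Fin (n + 1))) : Finset (Fin n) := univ.filter (fun i => i.succ ∈ S)

lemma mem_res {S : Finset (Fin (n + 1))} {i : Fin n} : i ∈ res S ↔ i.succ ∈ S := by simp [res]

lemma res_symmDiff (S T : Finset (Fin (n + 1))) : res (S ∆ T) = res S ∆ res T := by
  ext i; simp only [mem_res, mem_symmDiff]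

lemma card_res (S : Finset (Fin (n + 1))) : (S.erase 0).card = (res S).card := by
  symm
  apply card_bij (fun i _ => i.succ)
  · intro i hi
    exact mem_erase.2 ⟨Fin.succ_ne_zero i, mem_res.1 hi⟩
  · intro i _ j _ h
    exact Fin.succ_injective _ h
  · intro z hz
    obtain ⟨h1, h2⟩ := mem_erase.1 hz
    obtain ⟨i, rfl⟩ := Fin.exists_succ_eq.2 h1
    exact ⟨i, mem_res.2 h2, rfl⟩

/-- lift of a set -/
def up (F : Finset (Fin n)) : Finset (Fin (n + 1)) := F.map (Fin.succEmb n)

lemma succ_mem_up {F : Finset (Fin n)} {i : Fin n} : i.succ ∈ up F ↔ i ∈ F := by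
  unfold up
  exact mem_map' (Fin.succEmb n)

lemma zero_notMem_up (F : Finset (Fin n)) : (0 : Fin (n + 1)) ∉ up F := by
  simp [up]

lemma res_up (F : Finset (Fin n)) : res (up F) = F := by
  ext i; rw [mem_res, succ_mem_up]

lemma res_insert_up (F : Finset (Fin n)) : res (insert 0 (up F)) = F := by
  ext i; rw [mem_res, mem_insert, succ_mem_up]; simp

lemma two_maps (𝓕 : Finset (Finset (Fin n))) (A' : Finset (Fin (n + 1)))
    (p : Finset (Fin (n + 1)) → Prop) [DecidablePred p] :
    (𝓕.filter (fun F => p (up (F ∆ res A')))).card +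
      (𝓕.filter (fun F => p (insert 0 (up (F ∆ res A'))))).card ≤
    ((univ.filter (fun S => res S ∈ 𝓕)).filter (fun S => p (S ∆ A'))).card := by
  rw [← card_filter_add_card_filter_not (s := (univ.filter (fun S => res S ∈ 𝓕)).filter
    (fun S => p (S ∆ A'))) (fun S => (0 : Fin (n + 1)) ∉ S ∆ A')]
  apply add_le_add
  · apply card_le_card_of_injOn (fun F => up (F ∆ res A') ∆ A')
    · intro F hF
      simp only [coe_filter, Set.mem_ofPred_eq, mem_filter, mem_univ, true_and] at hF ⊢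
      rw [res_symmDiff, res_up, symmDiff_symmDiff_cancel_right, symmDiff_symmDiff_cancel_right]
      exact ⟨⟨hF.1, hF.2⟩, zero_notMem_up _⟩
    · intro F _ G _ h
      have := congrArg res h
      simp only [res_symmDiff, res_up, symmDiff_symmDiff_cancel_right] at this
      exact this
  · apply card_le_card_of_injOn (fun F => insert 0 (up (F ∆ res A')) ∆ A')
    · intro F hF
      simp only [coe_filter, Set.mem_ofPred_eq, mem_filter, mem_univ, true_and] at hF ⊢
      rw [res_symmDiff, res_insert_up, symmDiff_symmDiff_cancel_right,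
        symmDiff_symmDiff_cancel_right]
      exact ⟨⟨hF.1, hF.2⟩, not_not.2 (mem_insert_self _ _)⟩
    · intro F _ G _ h
      have := congrArg res h
      simp only [res_symmDiff, res_insert_up, symmDiff_symmDiff_cancel_right] at this
      exact this

theorem even_main {d : ℕ} (hctx : Ctx (n + 1) d) {𝓕 : Finset (Finset (Fin n))}
    (hD : Diam 𝓕 (2 * d)) :
    ∃ A, (𝓕.filter (fun F => d < (F ∆ A).card)).card ≤ (n - 2).choose (d - 1) := by
  have hD' : Diam (univ.filter (fun S : Finset (Fin (n + 1)) => res S ∈ 𝓕)) (2 * d + 1) := by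
    intro S hS T hT
    have h1 := hD _ (mem_filter.1 hS).2 _ (mem_filter.1 hT).2
    rw [← res_symmDiff, ← card_res] at h1
    have h2 := erase_cases (S ∆ T) 0
    omega
  obtain ⟨A', x', h⟩ := odd_main hctx hD'
  rw [show n + 1 - 3 = n - 2 by omega] at h
  have h1 := (two_maps 𝓕 A' (fun S => d < (S.erase x').card)).trans h
  rcases Fin.eq_zero_or_eq_succ x' with rfl | ⟨x, rfl⟩
  · simp only [card_res, res_up, res_insert_up] at h1
    exact ⟨res A', by omega⟩
  · have e1 : ∀ D : Finset (Fin n), ((up D).erase x.succ).card = (D.erase x).card := by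
      intro D
      rw [← card_map (Fin.succEmb n) (s := D.erase x), map_erase]
      rfl
    have e2 : ∀ D : Finset (Fin n),
        ((insert 0 (up D)).erase x.succ).card = (D.erase x).card + 1 := by
      intro D
      rw [erase_insert_of_ne (Fin.succ_ne_zero x).symm,
        card_insert_of_notMem (fun h => zero_notMem_up D (mem_of_mem_erase h)), e1]
    simp only [e1, e2] at h1
    have h2 : (𝓕.filter (fun F => d < (F ∆ res A').card)).card +
        (𝓕.filter (fun F => d < (F ∆ (res A' ∆ {x})).card)).card =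
        (𝓕.filter (fun F => d < ((F ∆ res A').erase x).card)).card +
        (𝓕.filter (fun F => d < ((F ∆ res A').erase x).card + 1)).card := by
      simp only [card_filter, ← sum_add_distrib]
      apply sum_congr rfl
      intro F _
      rw [← symmDiff_assoc]
      rcases erase_cases (F ∆ res A') x with ⟨-, h3, h4⟩ | ⟨-, h3, h4⟩
      · rw [← h3, ← h4, add_comm]
      · rw [← h4, h3]
    by_cases h3 : (𝓕.filter (fun F => d < (F ∆ res A').card)).card ≤ (n - 2).choose (d - 1)
    · exact ⟨_, h3⟩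
    · exact ⟨res A' ∆ {x}, by omega⟩

lemma ctx_exists : ∃ c : ℕ, ∀ n d : ℕ, 1 ≤ d → c * d ≤ n → Ctx n d := by
  obtain ⟨P, hP⟩ : ∃ P : ℕ, P = 2 ^ 2000 := ⟨_, rfl⟩
  refine ⟨(P + 1) * 6 + 112, fun n d hd h => ⟨hd, by nlinarith, fun x hx => big_of_le hP ?_⟩⟩
  nlinarith

end Pool.Agent.P.MP_6327e0_co
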