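import Pool.Agent.P.MP_6327e0_co.Basic

open Finset
open scoped symmDiff

namespace Pool.Agent.P.MP_6327e0_co

variable {n : ℕ}

/-- the shift of one member -/
def sh (i j : Fin n) (𝒜 : Finset (Finset (Fin n))) (A : Finset (Fin n)) : Finset (Fin n) :=
  if j ∈ A ∧ i ∉ A ∧ insert i (A.erase j) ∉ 𝒜 then insert i (A.erase j) else A

/-- the shift of a family -/
def shift (i j : Fin n) (𝒜 : Finset (Finset (Fin n))) : Finset (Finset (Fin n)) :=
  𝒜.image (sh i j 𝒜)

lemma sh_cases (i j : Fin n) (𝒜 : Finset (Finset (Fin n))) (A : Finset (Fin n)) :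
    (j ∈ A ∧ i ∉ A ∧ insert i (A.erase j) ∉ 𝒜 ∧ sh i j 𝒜 A = insert i (A.erase j)) ∨
    ((j ∈ A → i ∉ A → insert i (A.erase j) ∈ 𝒜) ∧ sh i j 𝒜 A = A) := by
  unfold sh
  split_ifs with h
  · exact Or.inl ⟨h.1, h.2.1, h.2.2, rfl⟩
  · refine Or.inr ⟨fun h1 h2 => ?_, rfl⟩
    by_contra h3
    exact h ⟨h1, h2, h3⟩

lemma card_swap {i j : Fin n} {A : Finset (Fin n)} (hj : j ∈ A) (hi : i ∉ A) :
    (insert i (A.erase j)).card = A.card := by
  rw [card_insert_of_notMem (fun h => hi (mem_of_mem_erase h)), card_erase_of_mem hj]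
  have := card_pos.2 ⟨j, hj⟩
  omega

lemma card_sh (i j : Fin n) (𝒜 : Finset (Finset (Fin n))) (A : Finset (Fin n)) :
    (sh i j 𝒜 A).card = A.card := by
  rcases sh_cases i j 𝒜 A with ⟨h1, h2, _, h4⟩ | ⟨_, h4⟩
  · rw [h4, card_swap h1 h2]
  · rw [h4]

lemma sh_injOn (i j : Fin n) (𝒜 : Finset (Finset (Fin n))) :
    Set.InjOn (sh i j 𝒜) (𝒜 : Set (Finset (Fin n))) := by
  intro A hA B hB hAB
  rw [mem_coe] at hA hB
  rcases sh_cases i j 𝒜 A with ⟨h1, h2, h3, h4⟩ | ⟨_, h4⟩ <;>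
    rcases sh_cases i j 𝒜 B with ⟨h5, h6, h7, h8⟩ | ⟨_, h8⟩
  · rw [h4, h8] at hAB
    ext x
    have := congrArg (fun S => x ∈ S) hAB
    simp only [mem_insert, mem_erase, eq_iff_iff] at this
    by_cases hxi : x = i
    · subst hxi; tauto
    · by_cases hxj : x = j
      · subst hxj; tauto
      · tauto
  · rw [h4, h8] at hAB
    exact absurd (hAB ▸ hB) h3
  · rw [h4, h8] at hAB
    exact absurd (hAB ▸ hA) h7
  · rw [h4, h8] at hAB
    exact hAB

lemma card_shift (i j : Fin n) (𝒜 : Finset (Finset (Fin n))) : (shift i j 𝒜).card = 𝒜.card :=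
  card_image_of_injOn (sh_injOn i j 𝒜)

lemma shift_sized (i j : Fin n) {𝒜 : Finset (Finset (Fin n))} {a : ℕ} (h : ∀ F ∈ 𝒜, F.card = a) :
    ∀ F ∈ shift i j 𝒜, F.card = a := by
  intro F hF
  obtain ⟨A, hA, rfl⟩ := mem_image.1 hF
  rw [card_sh, h A hA]

lemma cross_aux {i j : Fin n} {F G : Finset (Fin n)} {ℬ : Finset (Finset (Fin n))} {t : ℕ}
    (hj : j ∈ F) (hi : i ∉ F) (hG : G ∈ ℬ) (hGs : j ∈ G → i ∉ G → insert i (G.erase j) ∈ ℬ)
    (h : ∀ G ∈ ℬ, t ≤ (F ∩ G).card) : t ≤ (insert i (F.erase j) ∩ G).card := by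
  by_cases hjG : j ∈ G
  · by_cases hiG : i ∈ G
    · refine (h G hG).trans (le_of_eq ?_)
      have : insert i (F.erase j) ∩ G = insert i ((F ∩ G).erase j) := by
        ext x
        simp only [mem_inter, mem_insert, mem_erase]
        by_cases hxi : x = i
        · subst hxi; tauto
        · tauto
      rw [this, card_swap (mem_inter.2 ⟨hj, hjG⟩) (fun h => hi (mem_inter.1 h).1)]
    · refine (h _ (hGs hjG hiG)).trans (card_le_card ?_)
      intro x
      simp only [mem_inter, mem_insert, mem_erase]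
      by_cases hxi : x = i
      · subst hxi; tauto
      · tauto
  · refine (h G hG).trans (card_le_card ?_)
    intro x
    simp only [mem_inter, mem_insert, mem_erase]
    by_cases hxj : x = j
    · subst hxj; tauto
    · tauto

lemma shift_cross (i j : Fin n) {𝒜 ℬ : Finset (Finset (Fin n))} {t : ℕ}
    (h : ∀ F ∈ 𝒜, ∀ G ∈ ℬ, t ≤ (F ∩ G).card) :
    ∀ F ∈ shift i j 𝒜, ∀ G ∈ shift i j ℬ, t ≤ (F ∩ G).card := by
  intro F hF G hG
  obtain ⟨A, hA, rfl⟩ := mem_image.1 hF
  obtain ⟨B, hB, rfl⟩ := mem_image.1 hG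
  rcases sh_cases i j 𝒜 A with ⟨h1, h2, h3, h4⟩ | ⟨h3, h4⟩ <;>
    rcases sh_cases i j ℬ B with ⟨h5, h6, h7, h8⟩ | ⟨h7, h8⟩
  · rw [h4, h8]
    refine (h A hA B hB).trans (le_of_eq ?_)
    have : insert i (A.erase j) ∩ insert i (B.erase j) = insert i ((A ∩ B).erase j) := by
      ext x
      simp only [mem_inter, mem_insert, mem_erase]
      tauto
    rw [this, card_swap (mem_inter.2 ⟨h1, h5⟩) (fun h => h2 (mem_inter.1 h).1)]
  · rw [h4, h8]
    exact cross_aux h1 h2 hB h7 (h A hA)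
  · rw [h4, h8, inter_comm]
    exact cross_aux h5 h6 hA h3 (fun F hF => by rw [inter_comm]; exact h F hF B hB)
  · rw [h4, h8]
    exact h A hA B hB

lemma deg_shift_le (i j k : Fin n) (ℬ : Finset (Finset (Fin n))) :
    deg (shift i j ℬ) k ≤ (ℬ.filter (fun G => k ∈ sh i j ℬ G)).card := by
  unfold deg shift
  rw [filter_image]
  exact card_image_le

lemma deg_shift_ne {i j k : Fin n} (hk : k ≠ i) (ℬ : Finset (Finset (Fin n))) :
    deg (shift i j ℬ) k ≤ deg ℬ k := by
  refine (deg_shift_le i j k ℬ).trans (card_le_card ?_)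
  intro G hG
  rw [mem_filter] at hG ⊢
  refine ⟨hG.1, ?_⟩
  rcases sh_cases i j ℬ G with ⟨h1, h2, h3, h4⟩ | ⟨h3, h4⟩
  · have := hG.2
    rw [h4, mem_insert, mem_erase] at this
    tauto
  · rw [← h4]; exact hG.2

lemma deg_shift_self (i j : Fin n) (ℬ : Finset (Finset (Fin n))) :
    deg (shift i j ℬ) i ≤ deg ℬ i + deg ℬ j := by
  refine (deg_shift_le i j i ℬ).trans (le_trans (card_le_card ?_) (card_union_le _ _))
  intro G hG
  rw [mem_filter] at hG
  rw [mem_union, mem_filter, mem_filter]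
  rcases sh_cases i j ℬ G with ⟨h1, h2, h3, h4⟩ | ⟨h3, h4⟩
  · exact Or.inr ⟨hG.1, h1⟩
  · exact Or.inl ⟨hG.1, by rw [← h4]; exact hG.2⟩

/-- weight of a family -/
def wt (ℬ : Finset (Finset (Fin n))) : ℕ := ∑ G ∈ ℬ, ∑ x ∈ G, x.val

lemma sum_swap_lt {i j : Fin n} (hij : i < j) {A : Finset (Fin n)} (hj : j ∈ A) (hi : i ∉ A) :
    ∑ x ∈ insert i (A.erase j), x.val < ∑ x ∈ A, x.val := by
  rw [sum_insert (fun h => hi (mem_of_mem_erase h)), ← add_sum_erase A _ hj]
  have : i.val < j.val := hij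
  omega

lemma wt_shift_lt {i j : Fin n} (hij : i < j) {ℬ : Finset (Finset (Fin n))} {G : Finset (Fin n)}
    (hG : G ∈ ℬ) (hj : j ∈ G) (hi : i ∉ G) (hn : insert i (G.erase j) ∉ ℬ) :
    wt (shift i j ℬ) < wt ℬ := by
  unfold wt shift
  rw [sum_image (sh_injOn i j ℬ)]
  apply sum_lt_sum
  · intro A _
    rcases sh_cases i j ℬ A with ⟨h1, h2, h3, h4⟩ | ⟨h3, h4⟩
    · rw [h4]; exact (sum_swap_lt hij h1 h2).le
    · rw [h4]
  · refine ⟨G, hG, ?_⟩
    rcases sh_cases i j ℬ G with ⟨h1, h2, h3, h4⟩ | ⟨h3, h4⟩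
    · rw [h4]; exact sum_swap_lt hij h1 h2
    · exact absurd (h3 hj hi) hn

/-- initial segment of the complement of `Z` -/
def seg (Z : Finset (Fin n)) (m : ℕ) : Finset (Fin n) :=
  univ.filter (fun y => y ∉ Z ∧ y.val < m)

lemma mem_seg {Z : Finset (Fin n)} {m : ℕ} {y : Fin n} : y ∈ seg Z m ↔ y ∉ Z ∧ y.val < m := by
  simp [seg]

/-- the walk lemma -/
lemma walk (Z : Finset (Fin n)) (ℬ : Finset (Finset (Fin n))) (F : Finset (Fin n)) (t : ℕ)
    (hsh : ∀ i j : Fin n, i < j → i ∉ Z → j ∉ Z → ∀ G ∈ ℬ, j ∈ G → i ∉ G →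
      insert i (G.erase j) ∈ ℬ)
    (hc : ∀ G ∈ ℬ, t ≤ (F ∩ G).card) :
    ∀ G ∈ ℬ, ∃ m, (seg Z m).card + t ≤
      (F ∩ seg Z m).card + (G ∩ seg Z m).card + (F ∩ G ∩ Z).card := by
  intro G hG
  induction hs : (F ∩ G).card using Nat.strong_induction_on generalizing G with
  | _ s ih =>
  by_contra hcon
  push Not at hcon
  have key : ∀ (G : Finset (Fin n)) (m : ℕ), (F ∩ seg Z m).card + (G ∩ seg Z m).card =
      ((F ∪ G) ∩ seg Z m).card + (F ∩ G ∩ seg Z m).card := by
    intro G m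
    rw [← card_union_add_card_inter]
    congr 2
    · ext x; simp only [mem_inter, mem_union]; tauto
    · ext x; simp only [mem_inter]; tauto
  have h0 : (F ∩ G ∩ Z).card < t := by
    have := hcon 0
    have h1 : seg Z 0 = ∅ := by ext x; simp [mem_seg]
    rw [h1] at this
    simpa using this
  have hex : ∃ m, t ≤ (F ∩ G ∩ seg Z m).card + (F ∩ G ∩ Z).card := by
    refine ⟨n, (hc G hG).trans ?_⟩
    refine le_trans (card_le_card ?_) (card_union_le _ _)
    intro x hx
    simp only [mem_union, mem_inter, mem_seg] at hx ⊢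
    have := x.isLt
    tauto
  classical
  set m := Nat.find hex with hm
  have hm1 : t ≤ (F ∩ G ∩ seg Z m).card + (F ∩ G ∩ Z).card := Nat.find_spec hex
  have hm2 : ∀ m' < m, (F ∩ G ∩ seg Z m').card + (F ∩ G ∩ Z).card < t := by
    intro m' hm'
    exact not_le.1 (Nat.find_min hex hm')
  have hmpos : 0 < m := by
    rcases Nat.eq_zero_or_pos m with h | h
    · rw [h] at hm1
      have h1 : seg Z 0 = ∅ := by ext x; simp [mem_seg]
      rw [h1] at hm1
      simp only [inter_empty, card_empty, zero_add] at hm1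
      omega
    · exact h
  -- the element `j`
  have hlt : (F ∩ G ∩ seg Z (m - 1)).card < (F ∩ G ∩ seg Z m).card := by
    have := hm2 (m - 1) (by omega)
    omega
  obtain ⟨j, hj1, hj2⟩ := exists_mem_notMem_of_card_lt_card hlt
  simp only [mem_inter, mem_seg, not_and, not_lt] at hj1 hj2
  have hjm : j.val = m - 1 := by
    have := hj2 hj1.1 hj1.2.1
    omega
  have hle : (F ∩ G ∩ seg Z m).card ≤ (F ∩ G ∩ seg Z (m - 1)).card + 1 := by
    refine le_trans (card_le_card (t := insert j (F ∩ G ∩ seg Z (m - 1))) ?_) (card_insert_le _ _)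
    intro x hx
    simp only [mem_inter, mem_seg, mem_insert] at hx ⊢
    by_cases hxj : x = j
    · exact Or.inl hxj
    · refine Or.inr ⟨hx.1, hx.2.1, ?_⟩
      have : x.val ≠ j.val := fun h => hxj (Fin.ext h)
      omega
  have hlt2 : ((F ∪ G) ∩ seg Z m).card < (seg Z m).card := by
    have h1 := hcon m
    have h2 := key G m
    omega
  obtain ⟨i, hi1, hi2⟩ := exists_mem_notMem_of_card_lt_card hlt2
  have hiF : i ∉ F := fun h => hi2 (mem_inter.2 ⟨mem_union_left _ h, hi1⟩)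
  have hiG : i ∉ G := fun h => hi2 (mem_inter.2 ⟨mem_union_right _ h, hi1⟩)
  rw [mem_seg] at hi1
  have hij : i < j := by
    have : i.val ≠ j.val := fun h => hiF (Fin.ext h ▸ hj1.1.1)
    show i.val < j.val
    omega
  have hG' := hsh i j hij hi1.1 hj1.2.1 G hG hj1.1.2 hiG
  have hFG' : F ∩ insert i (G.erase j) = (F ∩ G).erase j := by
    ext x
    simp only [mem_inter, mem_insert, mem_erase]
    by_cases hxi : x = i
    · subst hxi; tauto
    · tauto
  have hcard : (F ∩ insert i (G.erase j)).card < s := by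
    rw [hFG', card_erase_of_mem (mem_inter.2 hj1.1), ← hs]
    have := card_pos.2 ⟨j, mem_inter.2 hj1.1⟩
    omega
  obtain ⟨m', hm'⟩ := ih _ hcard _ hG' rfl
  have hZ : (F ∩ insert i (G.erase j) ∩ Z).card ≤ (F ∩ G ∩ Z).card := by
    apply card_le_card
    rw [hFG']
    exact inter_subset_inter (erase_subset _ _) (Subset.refl _)
  by_cases hmm : m' < m
  · have h1 := key (insert i (G.erase j)) m'
    have h2 := hm2 m' hmm
    have h3 : ((F ∪ insert i (G.erase j)) ∩ seg Z m').card ≤ (seg Z m').card :=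
      card_le_card inter_subset_right
    have h4 : (F ∩ insert i (G.erase j) ∩ seg Z m').card ≤ (F ∩ G ∩ seg Z m').card := by
      apply card_le_card
      rw [hFG']
      exact inter_subset_inter (erase_subset _ _) (Subset.refl _)
    omega
  · have h1 : insert i (G.erase j) ∩ seg Z m' = insert i ((G ∩ seg Z m').erase j) := by
      ext x
      simp only [mem_inter, mem_insert, mem_erase, mem_seg]
      by_cases hxi : x = i
      · subst hxi
        simp only [true_or, true_and, iff_true]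
        exact ⟨hi1.1, by omega⟩
      · tauto
    have h2 : (insert i (G.erase j) ∩ seg Z m').card = (G ∩ seg Z m').card := by
      rw [h1]
      apply card_swap
      · exact mem_inter.2 ⟨hj1.1.2, mem_seg.2 ⟨hj1.2.1, by omega⟩⟩
      · exact fun h => hiG (mem_inter.1 h).1
    have h3 := hcon m'
    omega

end Pool.Agent.P.MP_6327e0_co
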