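import Pool.Agent.P.MP_6327e0_co.Global

open Finset
open scoped symmDiff

namespace Pool.Agent.P.MP_6327e0_co

variable {n : ℕ}

/-- diameter at most `u` -/
def Diam (𝓕 : Finset (Finset (Fin n))) (u : ℕ) : Prop := ∀ A ∈ 𝓕, ∀ B ∈ 𝓕, (A ∆ B).card ≤ u

/-- translate of a family -/
def tr (C : Finset (Fin n)) (𝓕 : Finset (Finset (Fin n))) : Finset (Finset (Fin n)) :=
  𝓕.image (fun F => F ∆ C)

lemma mem_tr {C F : Finset (Fin n)} {𝓕 : Finset (Finset (Fin n))} : F ∈ tr C 𝓕 ↔ F ∆ C ∈ 𝓕 := by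
  unfold tr
  rw [mem_image]
  constructor
  · rintro ⟨A, hA, rfl⟩
    rwa [symmDiff_symmDiff_cancel_right]
  · intro h
    exact ⟨_, h, symmDiff_symmDiff_cancel_right _ _⟩

lemma empty_symmDiff' (A : Finset (Fin n)) : ∅ ∆ A = A := by
  ext x; simp [mem_symmDiff]

lemma symmDiff_empty' (A : Finset (Fin n)) : A ∆ ∅ = A := by
  ext x; simp [mem_symmDiff]

lemma symmDiff_tr (A B C : Finset (Fin n)) : (A ∆ C) ∆ (B ∆ C) = A ∆ B := by
  ext x; simp only [mem_symmDiff]; tauto

lemma Diam.tr {𝓕 : Finset (Finset (Fin n))} {u : ℕ} (h : Diam 𝓕 u) (C : Finset (Fin n)) :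
    Diam (tr C 𝓕) u := by
  intro A hA B hB
  rw [← symmDiff_tr A B C]
  exact h _ (mem_tr.1 hA) _ (mem_tr.1 hB)

lemma Diam.mono {𝓕 𝓖 : Finset (Finset (Fin n))} {u : ℕ} (h : Diam 𝓕 u) (hs : 𝓖 ⊆ 𝓕) :
    Diam 𝓖 u := fun A hA B hB => h A (hs hA) B (hs hB)

lemma card_filter_tr (C : Finset (Fin n)) (𝓕 : Finset (Finset (Fin n)))
    (p : Finset (Fin n) → Prop) [DecidablePred p] :
    ((tr C 𝓕).filter p).card = (𝓕.filter (fun F => p (F ∆ C))).card := by
  unfold tr
  rw [filter_image, card_image_of_injective _ (symmDiff_left_injective C)]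

lemma card_tr (C : Finset (Fin n)) (𝓕 : Finset (Finset (Fin n))) : (tr C 𝓕).card = 𝓕.card :=
  card_image_of_injective _ (symmDiff_left_injective C)

lemma level {M : ℕ} (hB : Big n M) {𝓖 ℬ : Finset (Finset (Fin n))} {u k t : ℕ} (hD : Diam 𝓖 u)
    (hs : ℬ ⊆ 𝓖) (hk : ∀ G ∈ ℬ, G.card = k) (hne : ℬ.Nonempty) (hH : Hom ℬ) (hM : k + u ≤ M)
    (ht : 1 ≤ t) (hl : N n ((k : ℤ) - 10 * t) ≤ ℬ.card) (k' : ℕ) (hk' : u + 2 * t ≤ k + k' + 1) :
    (𝓖.filter (fun F => F.card = k')).card ≤ N n ((k' : ℤ) - 10 * t) := by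
  by_cases hM' : k' ≤ M
  · refine global hB k' k t hM' (by omega) ht _ ℬ (fun F hF => (mem_filter.1 hF).2) hk hne hl hH ?_
    intro F hF G hG
    rw [mem_filter] at hF
    have h1 := card_symmDiff_add F G
    have h2 := hD F hF.1 G (hs hG)
    have h3 := hk G hG
    omega
  · have : 𝓖.filter (fun F => F.card = k') = ∅ := by
      apply filter_eq_empty_iff.2
      intro F hF hFk
      obtain ⟨G, hG⟩ := hne
      have h1 := card_symmDiff_add F G
      have h2 := hD F hF G (hs hG)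
      have h3 := hk G hG
      have h4 : (F ∩ G).card ≤ G.card := card_le_card inter_subset_right
      omega
    rw [this]; simp

lemma tail {M : ℕ} (hB : Big n M) {𝓖 ℬ : Finset (Finset (Fin n))} {u k t : ℕ} (hD : Diam 𝓖 u)
    (hs : ℬ ⊆ 𝓖) (hk : ∀ G ∈ ℬ, G.card = k) (hne : ℬ.Nonempty) (hH : Hom ℬ) (hM : k + u ≤ M)
    (hku : k ≤ u) (ht : 1 ≤ t) (hl : N n ((k : ℤ) - 10 * t) ≤ ℬ.card) :
    (𝓖.filter (fun F => u + 2 * t ≤ k + F.card + 1)).card ≤
      2 * N n ((u : ℤ) - k + 1 - 8 * t) := by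
  have hsub : 𝓖.filter (fun F => u + 2 * t ≤ k + F.card + 1) ⊆
      (range (n + 1)).biUnion (fun i => 𝓖.filter (fun F => F.card = u + 2 * t - 1 - k + i)) := by
    intro F hF
    rw [mem_filter] at hF
    have h1 : F.card ≤ n := by simpa using card_le_univ F
    rw [mem_biUnion]
    exact ⟨F.card - (u + 2 * t - 1 - k), mem_range.2 (by omega), mem_filter.2 ⟨hF.1, by omega⟩⟩
  set f : ℕ → ℕ := fun i => N n ((u : ℤ) - k + 1 - 8 * t - i) with hf
  have h2 : ∀ i, 2 * f (i + 1) ≤ f i := by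
    intro i
    have := hB.le 1 (j := (u : ℤ) - k + 1 - 8 * t - i) (j' := (u : ℤ) - k + 1 - 8 * t - (i + 1 : ℕ))
      (by omega) (by omega)
    simpa [hf] using this
  have h3 := geom_sum_le f h2 (n + 1)
  have h4 : f 0 = N n ((u : ℤ) - k + 1 - 8 * t) := by simp [hf]
  rw [h4] at h3
  refine (card_le_card hsub).trans (card_biUnion_le.trans (le_trans (sum_le_sum ?_) h3))
  intro i _
  refine (level hB hD hs hk hne hH hM (t := t + i / 2) (by omega) ?_ _ (by omega)).trans ?_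
  · exact (hB.mono (by omega) (by omega)).trans hl
  · exact hB.mono (by omega) (by omega)

/-- a good centre -/
def Good (d : ℕ) (𝓕 : Finset (Finset (Fin n))) (C : Finset (Fin n)) (k : ℕ) : Prop :=
  ∃ ℬ, ℬ ⊆ tr C 𝓕 ∧ ℬ.Nonempty ∧ (∀ G ∈ ℬ, G.card = k) ∧ N n ((d : ℤ) - 2) ≤ ℬ.card ∧ Hom ℬ

lemma Good.mono {d k : ℕ} {𝓕 𝓖 : Finset (Finset (Fin n))} {C : Finset (Fin n)}
    (h : Good d 𝓖 C k) (hs : 𝓖 ⊆ 𝓕) : Good d 𝓕 C k := by
  obtain ⟨ℬ, h1, h2⟩ := h
  exact ⟨ℬ, h1.trans (image_subset_image hs), h2⟩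

lemma Good.exists_mem {d k : ℕ} {𝓕 : Finset (Finset (Fin n))} {C : Finset (Fin n)}
    (h : Good d 𝓕 C k) : ∃ F ∈ 𝓕, (F ∆ C).card = k := by
  obtain ⟨ℬ, h1, ⟨G, hG⟩, h3, _⟩ := h
  exact ⟨G ∆ C, mem_tr.1 (h1 hG), by rw [symmDiff_symmDiff_cancel_right]; exact h3 G hG⟩

lemma Good.translate {d k : ℕ} {𝓕 : Finset (Finset (Fin n))} {C : Finset (Fin n)}
    (A : Finset (Fin n)) (h : Good d 𝓕 (C ∆ A) k) : Good d (tr A 𝓕) C k := by
  obtain ⟨ℬ, h1, h2⟩ := h
  refine ⟨ℬ, fun G hG => ?_, h2⟩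
  have := h1 hG
  rw [mem_tr] at this
  rw [mem_tr, mem_tr, symmDiff_assoc]
  exact this

theorem structure_thm {M : ℕ} (hB : Big n M) {𝓡 : Finset (Finset (Fin n))} {d : ℕ} (hd : 1 ≤ d)
    (hM : 4 * d + 2 ≤ M) (hD : Diam 𝓡 (2 * d + 1)) (hR : N n ((d : ℤ) - 1) < 10 * 𝓡.card) :
    ∃ C, Good d 𝓡 C d ∨ Good d 𝓡 C (d - 1) := by
  set lev : Finset (Fin n) → ℕ → Finset (Finset (Fin n)) :=
    fun C k => (tr C 𝓡).filter (fun F => F.card = k) with hlev
  obtain ⟨⟨C, k⟩, hCk, hmax⟩ := exists_max_image ((univ : Finset (Finset (Fin n))) ×ˢ range (n + 1))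
    (fun p => (lev p.1 p.2).card * 128 ^ (n - p.2)) ⟨(∅, 0), by simp⟩
  have hkn : k ≤ n := by simpa [Nat.lt_succ_iff] using hCk
  have hmax' : ∀ C' j, j ≤ n → (lev C' j).card * 128 ^ (n - j) ≤ (lev C k).card * 128 ^ (n - k) :=
    fun C' j hj => hmax (C', j) (by simp [hj])
  set ℬ := lev C k with hℬ
  have hs : ℬ ⊆ tr C 𝓡 := filter_subset _ _
  have hk : ∀ G ∈ ℬ, G.card = k := fun G hG => (mem_filter.1 hG).2
  have hD' := hD.tr C
  have hne : ℬ.Nonempty := by
    obtain ⟨F, hF⟩ : 𝓡.Nonempty := by rw [← card_pos]; omega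
    have h1 := hmax' F 0 (Nat.zero_le _)
    have h2 : 0 < (lev F 0).card := by
      rw [card_pos]
      exact ⟨∅, mem_filter.2 ⟨mem_tr.2 (by rw [empty_symmDiff']; exact hF), rfl⟩⟩
    have h3 : 0 < (lev F 0).card * 128 ^ (n - 0) := by positivity
    rw [← card_pos]
    by_contra h4
    have h5 : ℬ.card = 0 := by omega
    rw [h5] at h1
    omega
  have hpos : 0 < ℬ.card := card_pos.2 hne
  have hH : Hom ℬ := by
    intro i
    rcases Nat.eq_zero_or_pos k with h0 | h0
    · have : deg ℬ i = 0 := by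
        unfold deg
        rw [card_eq_zero, filter_eq_empty_iff]
        intro G hG hi
        have := hk G hG
        have := card_pos.2 ⟨i, hi⟩
        omega
      rw [this]; simp
    · have h1 : deg ℬ i ≤ (lev (C ∆ {i}) (k - 1)).card := by
        unfold deg
        apply card_le_card_of_injOn (fun G => G ∆ {i})
        · intro G hG
          simp only [coe_filter, Set.mem_ofPred_eq] at hG
          simp only [hlev, coe_filter, Set.mem_ofPred_eq]
          refine ⟨?_, ?_⟩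
          · rw [mem_tr, symmDiff_tr]
            exact mem_tr.1 (hs hG.1)
          · have h2 := card_symmDiff_add G {i}
            have h3 : G ∩ {i} = {i} := inter_eq_right.2 (singleton_subset_iff.2 hG.2)
            rw [h3, card_singleton, hk G hG.1] at h2
            omega
        · exact (symmDiff_left_injective _).injOn
      have h2 := hmax' (C ∆ {i}) (k - 1) (by omega)
      rw [show n - (k - 1) = (n - k) + 1 by omega, pow_succ] at h2
      have h3 : 128 * deg ℬ i * 128 ^ (n - k) ≤ ℬ.card * 128 ^ (n - k) := by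
        calc 128 * deg ℬ i * 128 ^ (n - k) = deg ℬ i * (128 ^ (n - k) * 128) := by ring
          _ ≤ _ := Nat.mul_le_mul_right _ h1
          _ ≤ _ := h2
      exact Nat.le_of_mul_le_mul_right h3 (by positivity)
  have hku : k ≤ 2 * d + 1 := by
    obtain ⟨G₀, hG₀⟩ := hne
    have h1 := markov ℬ hH G₀ (k / 2 + 1)
    rw [hk G₀ hG₀] at h1
    have h2 : (ℬ.filter (fun G => k / 2 + 1 ≤ (G ∩ G₀).card)).card < ℬ.card := by
      by_contra h3
      rw [not_lt] at h3
      have h4 : (k / 2 + 1) * ℬ.card ≤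
          (k / 2 + 1) * (ℬ.filter (fun G => k / 2 + 1 ≤ (G ∩ G₀).card)).card :=
        Nat.mul_le_mul_left _ h3
      have h5 : (k + 1) * ℬ.card ≤ (128 * (k / 2 + 1)) * ℬ.card :=
        Nat.mul_le_mul_right _ (by omega)
      nlinarith
    obtain ⟨G, hG, hG'⟩ := exists_mem_notMem_of_card_lt_card h2
    simp only [mem_filter, not_and, not_le] at hG'
    have h3 := hG' hG
    have h4 := card_symmDiff_add G G₀
    have h5 := hD' G (hs hG) G₀ (hs hG₀)
    rw [hk G hG, hk G₀ hG₀] at h4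
    omega
  set e := Nat.findGreatest (fun e => n.choose e ≤ ℬ.card) k with he
  have hek : e ≤ k := Nat.findGreatest_le k
  have he1 : N n e ≤ ℬ.card := by
    rw [N_nat]
    exact Nat.findGreatest_spec (P := fun e => n.choose e ≤ ℬ.card) (Nat.zero_le k)
      (by simp only [Nat.choose_zero_right]; omega)
  have he2 : ℬ.card ≤ N n (min k (e + 1) : ℕ) := by
    rw [N_nat]
    by_cases h : e < k
    · rw [min_eq_right (by omega)]
      have := Nat.findGreatest_is_greatest (P := fun e => n.choose e ≤ ℬ.card)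
        (k := e + 1) (n := k) (by omega) (by omega)
      omega
    · rw [min_eq_left (by omega)]
      have : n.choose k = (powersetCard k (univ : Finset (Fin n))).card := by simp
      rw [this]
      exact card_le_card (fun G hG => mem_powersetCard.2 ⟨subset_univ _, hk G hG⟩)
  have hself : d < k → (e : ℤ) ≤ k - 10 * (k - d) := by
    intro hdk
    by_contra hcon
    have h1 := level hB hD' hs hk hne hH (by omega) (t := k - d) (by omega)
      ((hB.mono (by omega) (by omega)).trans he1) k (by omega)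
    have h2 := hB.le 1 (j := e) (j' := (k : ℤ) - 10 * (k - d : ℕ)) (by omega) (by omega)
    have h3 : ℬ.card = ((tr C 𝓡).filter (fun F => F.card = k)).card := rfl
    omega
  have hed : e ≤ d := by
    by_cases h : d < k
    · have := hself h; omega
    · omega
  obtain ⟨x, hx⟩ : ∃ x, d = e + x := ⟨d - e, by omega⟩
  have hkx : k ≤ d + x := by
    by_cases h : d < k
    · have := hself h; omega
    · omega
  have htail := tail hB hD' hs hk hne hH (by omega) hku (t := x + 1) (by omega)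
    ((hB.mono (by omega) (by omega)).trans he1)
  have htail2 : N n (((2 * d + 1 : ℕ) : ℤ) - k + 1 - 8 * (x + 1 : ℕ)) ≤ N n ((d : ℤ) - 2) :=
    hB.mono (by omega) (by omega)
  have hmain : ((tr C 𝓡).filter (fun F => ¬ (2 * d + 1 + 2 * (x + 1) ≤ k + F.card + 1))).card ≤
      2 * (128 ^ (4 * x + 1) * ℬ.card) := by
    have hsub : (tr C 𝓡).filter (fun F => ¬ (2 * d + 1 + 2 * (x + 1) ≤ k + F.card + 1)) ⊆
        (range (k + (4 * x + 1) + 1)).biUnion (fun i => lev C (k + (4 * x + 1) - i)) := by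
      intro F hF
      rw [mem_filter] at hF
      rw [mem_biUnion]
      exact ⟨k + (4 * x + 1) - F.card, mem_range.2 (by omega), mem_filter.2 ⟨hF.1, by omega⟩⟩
    set f : ℕ → ℕ := fun i => (128 ^ (4 * x + 1) * ℬ.card) / 2 ^ i with hf
    have h2 : ∀ i, 2 * f (i + 1) ≤ f i := by
      intro i
      simp only [hf]
      rw [pow_succ 2, ← Nat.div_div_eq_div_mul]
      exact Nat.mul_div_le _ _
    have h3 := geom_sum_le f h2 (k + (4 * x + 1) + 1)
    have h4 : f 0 = 128 ^ (4 * x + 1) * ℬ.card := by simp [hf]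
    rw [h4] at h3
    refine (card_le_card hsub).trans (card_biUnion_le.trans (le_trans (sum_le_sum ?_) h3))
    intro i hi
    rw [mem_range] at hi
    simp only [hf]
    rw [Nat.le_div_iff_mul_le (by positivity)]
    by_cases hj : k + (4 * x + 1) - i ≤ n
    · have h5 := hmax' C _ hj
      have h6 : (lev C (k + (4 * x + 1) - i)).card * 128 ^ i * 128 ^ (n - k) ≤
          128 ^ (4 * x + 1) * ℬ.card * 128 ^ (n - k) := by
        calc (lev C (k + (4 * x + 1) - i)).card * 128 ^ i * 128 ^ (n - k)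
            = (lev C (k + (4 * x + 1) - i)).card * 128 ^ (i + (n - k)) := by rw [pow_add]; ring
          _ = (lev C (k + (4 * x + 1) - i)).card *
              128 ^ ((n - (k + (4 * x + 1) - i)) + (4 * x + 1)) := by
              congr 2; omega
          _ = (lev C (k + (4 * x + 1) - i)).card * 128 ^ (n - (k + (4 * x + 1) - i)) *
              128 ^ (4 * x + 1) := by rw [pow_add]; ring
          _ ≤ ℬ.card * 128 ^ (n - k) * 128 ^ (4 * x + 1) := Nat.mul_le_mul_right _ h5
          _ = _ := by ring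
      refine le_trans (Nat.mul_le_mul_left _ (Nat.pow_le_pow_left (by norm_num : 2 ≤ 128) i)) ?_
      exact Nat.le_of_mul_le_mul_right h6 (by positivity)
    · have : lev C (k + (4 * x + 1) - i) = ∅ := by
        apply filter_eq_empty_iff.2
        intro F _ hF
        have h1 : F.card ≤ n := by simpa using card_le_univ F
        omega
      rw [this]; simp
  have htot := card_filter_add_card_filter_not (s := tr C 𝓡)
    (fun F => 2 * d + 1 + 2 * (x + 1) ≤ k + F.card + 1)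
  rw [card_tr] at htot
  have hfin : d - 1 ≤ min k (e + 1) := by
    by_contra hcon
    have h1 := hB.le (7 * (4 * x + 1) + 6) (j := (d : ℤ) - 1) (j' := (min k (e + 1) : ℕ))
      (by omega) (by omega)
    have h2 := hB.le 6 (j := (d : ℤ) - 1) (j' := (d : ℤ) - 2) (by omega) (by omega)
    have h3 : 32 * (2 * (128 ^ (4 * x + 1) * ℬ.card)) ≤ N n ((d : ℤ) - 1) := by
      refine le_trans ?_ h1
      calc 32 * (2 * (128 ^ (4 * x + 1) * ℬ.card)) = 2 ^ (7 * (4 * x + 1) + 6) * ℬ.card := by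
            rw [pow_add 2, pow_mul 2 7, show (2 : ℕ) ^ 7 = 128 by norm_num]
            generalize 128 ^ (4 * x + 1) = Q
            ring
        _ ≤ _ := Nat.mul_le_mul_left _ he2
    omega
  have hkd : k ≤ d := by
    by_contra h
    have := hself (by omega)
    omega
  have hgood : Good d 𝓡 C k :=
    ⟨ℬ, hs, hne, hk, (hB.mono (by omega) (by omega)).trans he1, hH⟩
  refine ⟨C, ?_⟩
  by_cases h : k = d
  · left; rwa [h] at hgood
  · right; rwa [show k = d - 1 by omega] at hgood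

/-- the level bound around a good centre -/
lemma Good.level_le {M d k : ℕ} (hB : Big n M) {𝓕 : Finset (Finset (Fin n))} {C : Finset (Fin n)}
    (h : Good d 𝓕 C k) (hM : 4 * d + 2 ≤ M) (hD : Diam 𝓕 (2 * d + 1)) (hk : k ≤ d)
    (t k' : ℕ) (ht : 1 ≤ t) (hk' : 2 * d + 2 * t ≤ k + k') :
    (𝓕.filter (fun F => (F ∆ C).card = k')).card ≤ N n ((k' : ℤ) - 10 * t) := by
  obtain ⟨ℬ, hs, hne, hℬ, hl, hH⟩ := h
  rw [← card_filter_tr C 𝓕 (fun F => F.card = k')]
  exact level hB (hD.tr C) hs hℬ hne hH (by omega) ht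
    ((hB.mono (by omega) (by omega)).trans hl) k' (by omega)

/-- good centres are close to each other -/
lemma Good.dist {M d k k' : ℕ} (hB : Big n M) {𝓕 : Finset (Finset (Fin n))}
    {C C' : Finset (Fin n)} (h : Good d 𝓕 C k) (h' : Good d 𝓕 C' k') (hM : 4 * d + 2 ≤ M)
    (hD : Diam 𝓕 (2 * d + 1)) (hk : k ≤ d) (hk1 : d ≤ k + 1) (hk1' : d ≤ k' + 1) :
    (C ∆ C').card + k + k' ≤ 2 * d + 1 := by
  by_contra hcon
  rw [not_le] at hcon
  obtain ⟨ℬ, hs, hne, hℬ, hl, hH⟩ := h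
  obtain ⟨ℬ', hs', hne', hℬ', hl', hH'⟩ := h'
  have htail := tail hB (hD.tr C) hs hℬ hne hH (by omega) (by omega) (t := 1) le_rfl
    ((hB.mono (by omega) (by omega)).trans hl)
  have h1 := hB.le 3 (j := (d : ℤ) - 2) (j' := ((2 * d + 1 : ℕ) : ℤ) - k + 1 - 8 * (1 : ℕ))
    (by omega) (by omega)
  set R := C ∆ C' with hR
  set τ := (R.card + k + k' - 2 * d) / 2 with hτ
  have h2 := markov ℬ' hH' R τ
  have h3 : (ℬ'.filter (fun G => ¬ τ ≤ (G ∩ R).card)).card ≤
      ((tr C 𝓕).filter (fun F => 2 * d + 1 + 2 * 1 ≤ k + F.card + 1)).card := by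
    apply card_le_card_of_injOn (fun G => G ∆ R)
    · intro G hG
      simp only [coe_filter, Set.mem_ofPred_eq] at hG ⊢
      refine ⟨?_, ?_⟩
      · rw [mem_tr]
        have : (G ∆ R) ∆ C = G ∆ C' := by
          ext x; simp only [hR, mem_symmDiff]; tauto
        rw [this]
        exact mem_tr.1 (hs' hG.1)
      · have h4 := card_symmDiff_add G R
        have h5 := hℬ' G hG.1
        have h6 := hG.2
        omega
    · exact (symmDiff_left_injective _).injOn
  have h4 := card_filter_add_card_filter_not (s := ℬ') (fun G => τ ≤ (G ∩ R).card)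
  have hpos : 0 < ℬ'.card := card_pos.2 hne'
  have h5 : R.card * ℬ'.card ≤ (5 * τ) * ℬ'.card := Nat.mul_le_mul_right _ (by omega)
  have h6 : τ * (128 * (ℬ'.filter (fun G => τ ≤ (G ∩ R).card)).card) ≤ τ * (5 * ℬ'.card) := by
    nlinarith
  have h7 := Nat.le_of_mul_le_mul_left h6 (by omega)
  omega

end Pool.Agent.P.MP_6327e0_co
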